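import Pool.Agent.Lib.MP_17b37b_co.TGeo

/-!
Averaging over the offset of the strips.
-/

namespace Pool.Agent.Lib.MP_17b37b_co

open Finset

theorem floor_ii (p : ℝ) :
    IntervalIntegrable (fun t : ℝ => ((⌊p + t⌋ : ℤ) : ℝ)) MeasureTheory.volume 0 1 := by
  refine Monotone.intervalIntegrable fun a b h => ?_
  exact Int.cast_le.2 (Int.floor_mono (by linarith))

theorem fract_ii (p : ℝ) :
    IntervalIntegrable (fun t : ℝ => Int.fract (p + t)) MeasureTheory.volume 0 1 := by
  have h : IntervalIntegrable (fun t : ℝ => p + t) MeasureTheory.volume 0 1 :=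
    (by fun_prop : Continuous fun t : ℝ => p + t).intervalIntegrable _ _
  exact h.sub (floor_ii p)

theorem fract_int (p : ℝ) :
    ∫ t in (0 : ℝ)..1, Int.fract (p + t) = ∫ t in (0 : ℝ)..1, Int.fract t := by
  rw [intervalIntegral.integral_comp_add_left (fun t => Int.fract t) p, add_zero]
  have := (Int.fract_periodic ℝ).intervalIntegral_add_eq p 0
  rwa [zero_add] at this

theorem floor_int (p q : ℝ) :
    ∫ t in (0 : ℝ)..1, (((⌊p + t⌋ : ℤ) : ℝ) - ((⌊q + t⌋ : ℤ) : ℝ)) = p - q := by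
  have e : (fun t : ℝ => ((⌊p + t⌋ : ℤ) : ℝ) - ((⌊q + t⌋ : ℤ) : ℝ)) =
      fun t => (p - q) - (Int.fract (p + t) - Int.fract (q + t)) := by
    funext t
    simp only [Int.fract]
    ring
  rw [e, intervalIntegral.integral_sub (by simp) ((fract_ii p).sub (fract_ii q)),
    intervalIntegral.integral_sub (fract_ii p) (fract_ii q), fract_int p, fract_int q]
  simp

theorem avg_floor {ι : Type*} (T : Finset ι) (β p q : ι → ℝ) (B : ℝ)
    (h : ∀ t : ℝ, B ≤ ∑ i ∈ T, β i * (((⌊p i + t⌋ : ℤ) : ℝ) - ((⌊q i + t⌋ : ℤ) : ℝ))) :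
    B ≤ ∑ i ∈ T, β i * (p i - q i) := by
  have hi : ∀ i ∈ T, IntervalIntegrable
      (fun t : ℝ => β i * (((⌊p i + t⌋ : ℤ) : ℝ) - ((⌊q i + t⌋ : ℤ) : ℝ)))
      MeasureTheory.volume 0 1 := fun i _ => ((floor_ii _).sub (floor_ii _)).const_mul _
  have h1 := intervalIntegral.integral_mono_on (μ := MeasureTheory.volume) zero_le_one
    (f := fun _ => B) (by simp) (by
      have := IntervalIntegrable.sum T hi
      rwa [Finset.sum_fn] at this) (fun t _ => h t)
  rw [intervalIntegral.integral_finsetSum hi] at h1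
  simp only [intervalIntegral.integral_const_mul, floor_int] at h1
  simpa using h1

open Classical in
theorem offset_bound {V : Type*} (x y : V → ℝ) (X : Finset V)
    (hsep : ∀ u ∈ X, ∀ v ∈ X, u ≠ v → 1 ≤ d2 x y u v) (s : ℝ) (hs1 : 1 / 2 ≤ s) (hs2 : s ≤ 1)
    (w : V → ℝ) (hw : ∀ v ∈ X, 0 ≤ w v) (A : ℝ)
    (hA : ∀ I ⊆ X, (∀ u ∈ I, ∀ v ∈ I, d2 x y u v ≠ 1) → ∑ v ∈ I, w v ≤ A) :
    ∑ v ∈ X, w v * (ga ^ 2 - ∑ u ∈ X,
      (ga ^ 2 * (if Del x y u v then max (1 - (y v - y u) / s) 0 else 0) +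
        ga ^ 4 * (if d2 x y u v = 1 then max ((y v - y u) / s - 1) 0 else 0))) ≤
      (1 + ga ^ 2) * A := by
  have hs : 0 < s := by linarith
  have g2 : 0 < ga ^ 2 := pow_pos ga_pos 2
  have g4 : 0 < ga ^ 4 := pow_pos ga_pos 4
  set a1 : V → V → ℝ := fun u v => if Del x y u v ∧ y v / s - y u / s ≤ 1 then 1 else 0 with ha1
  set a2 : V → V → ℝ := fun u v => if d2 x y u v = 1 ∧ 1 ≤ y v / s - y u / s then 1 else 0
    with ha2
  have split : ∀ D : V → V → ℝ, ∑ v ∈ X, w v * (ga ^ 2 - ∑ u ∈ X,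
      (ga ^ 2 * (a1 u v * (1 - D u v)) + ga ^ 4 * (a2 u v * (D u v - 1)))) =
      ∑ v ∈ X, w v * (ga ^ 2 - ∑ u ∈ X, (ga ^ 2 * a1 u v - ga ^ 4 * a2 u v)) -
      ∑ i ∈ X ×ˢ X, (w i.1 * (ga ^ 4 * a2 i.2 i.1 - ga ^ 2 * a1 i.2 i.1)) * D i.2 i.1 := by
    intro D
    rw [sum_product, ← sum_sub_distrib]
    refine sum_congr rfl fun v _ => ?_
    simp only [mul_sub, mul_sum]
    rw [sub_sub, ← sum_add_distrib]
    congr 1
    exact sum_congr rfl fun u _ => by ring
  have key := avg_floor (X ×ˢ X)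
    (fun i => w i.1 * (ga ^ 4 * a2 i.2 i.1 - ga ^ 2 * a1 i.2 i.1))
    (fun i => y i.1 / s) (fun i => y i.2 / s)
    (∑ v ∈ X, w v * (ga ^ 2 - ∑ u ∈ X, (ga ^ 2 * a1 u v - ga ^ 4 * a2 u v)) - (1 + ga ^ 2) * A)
    (by
      intro t
      have h1 := strip_bound x y X hsep (fun v => ⌊y v / s + t⌋)
        (fun u _ v _ h => by
          by_contra hc
          have : y v / s ≤ y u / s := div_le_div_of_nonneg_right (not_lt.1 hc) hs.le
          exact absurd (Int.floor_mono (by linarith : y v / s + t ≤ y u / s + t)) (not_le.2 h))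
        (fun u _ v _ h => by
          have h1 := Int.abs_sub_lt_one_of_floor_eq_floor h
          have e : y u / s + t - (y v / s + t) = (y u - y v) / s := by ring
          rw [e, abs_div, abs_of_pos hs, div_lt_one hs] at h1
          rw [sq_lt_one_iff_abs_lt_one]
          linarith)
        (fun u _ v _ h => by
          have h1 : y v / s + t ≤ y u / s + t + ((2 : ℤ) : ℝ) := by
            have : (y v - y u) / s ≤ 2 := by
              rw [div_le_iff₀ hs]; linarith
            rw [sub_div] at this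
            push_cast
            linarith
          have := Int.floor_mono h1
          rwa [Int.floor_add_intCast] at this) w hw A hA
      have h2 := split (fun u v => ((⌊y v / s + t⌋ : ℤ) : ℝ) - ((⌊y u / s + t⌋ : ℤ) : ℝ))
      have h3 : ∑ v ∈ X, w v * (ga ^ 2 - ∑ u ∈ X,
          (ga ^ 2 * (a1 u v * (1 - (((⌊y v / s + t⌋ : ℤ) : ℝ) - ((⌊y u / s + t⌋ : ℤ) : ℝ)))) +
          ga ^ 4 * (a2 u v * ((((⌊y v / s + t⌋ : ℤ) : ℝ) - ((⌊y u / s + t⌋ : ℤ) : ℝ)) - 1)))) ≤
          (1 + ga ^ 2) * A := by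
        refine le_trans (sum_le_sum fun v hv => mul_le_mul_of_nonneg_left ?_ (hw v hv)) h1
        refine sub_le_sub_left (sum_le_sum fun u _ => add_le_add
          (mul_le_mul_of_nonneg_left ?_ g2.le) (mul_le_mul_of_nonneg_left ?_ g4.le)) _
        · have k1 : y v / s - y u / s ≤ 1 → ⌊y v / s + t⌋ ≤ ⌊y u / s + t⌋ + 1 := fun h => by
            rw [← Int.floor_add_one]
            exact Int.floor_mono (by linarith)
          have k2 : ⌊y u / s + t⌋ = ⌊y v / s + t⌋ → y v / s - y u / s ≤ 1 := fun h => by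
            have := Int.abs_sub_lt_one_of_floor_eq_floor h
            rw [abs_lt] at this
            linarith [this.1]
          simp only [ha1]
          by_cases c1 : Del x y u v ∧ ⌊y u / s + t⌋ = ⌊y v / s + t⌋
          · rw [if_pos c1, if_pos ⟨c1.1, k2 c1.2⟩, c1.2]
            simp
          · rw [if_neg c1]
            split_ifs with c2
            · have : ((⌊y v / s + t⌋ : ℤ) : ℝ) ≤ ((⌊y u / s + t⌋ + 1 : ℤ) : ℝ) :=
                Int.cast_le.2 (k1 c2.2)
              push_cast at this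
              linarith
            · simp
        · have k1 : 1 ≤ y v / s - y u / s → ⌊y u / s + t⌋ + 1 ≤ ⌊y v / s + t⌋ := fun h => by
            rw [← Int.floor_add_one]
            exact Int.floor_mono (by linarith)
          have k2 : ⌊y u / s + t⌋ + 2 = ⌊y v / s + t⌋ → 1 ≤ y v / s - y u / s := fun h => by
            by_contra hc
            have : ⌊y v / s + t⌋ ≤ ⌊y u / s + t⌋ + 1 := by
              rw [← Int.floor_add_one]
              exact Int.floor_mono (by linarith)
            omega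
          simp only [ha2]
          by_cases c1 : d2 x y u v = 1 ∧ ⌊y u / s + t⌋ + 2 = ⌊y v / s + t⌋
          · rw [if_pos c1, if_pos ⟨c1.1, k2 c1.2⟩, ← c1.2]
            push_cast
            linarith
          · rw [if_neg c1]
            split_ifs with c2
            · have : ((⌊y u / s + t⌋ + 1 : ℤ) : ℝ) ≤ ((⌊y v / s + t⌋ : ℤ) : ℝ) :=
                Int.cast_le.2 (k1 c2.2)
              push_cast at this
              linarith
            · simp
      rw [h2] at h3
      linarith)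
  have h2 := split (fun u v => y v / s - y u / s)
  refine le_trans (le_of_eq ?_) (show ∑ v ∈ X, w v * (ga ^ 2 - ∑ u ∈ X,
      (ga ^ 2 * (a1 u v * (1 - (y v / s - y u / s))) +
        ga ^ 4 * (a2 u v * ((y v / s - y u / s) - 1)))) ≤ (1 + ga ^ 2) * A by
    rw [h2]; linarith)
  refine sum_congr rfl fun v _ => ?_
  congr 2
  refine sum_congr rfl fun u _ => ?_
  rw [sub_div]
  congr 2
  · simp only [ha1]
    by_cases c1 : Del x y u v
    · by_cases c2 : y v / s - y u / s ≤ 1
      · rw [if_pos c1, if_pos ⟨c1, c2⟩, max_eq_left (by linarith), one_mul]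
      · rw [if_pos c1, if_neg (fun h => c2 h.2), max_eq_right (by linarith), zero_mul]
    · rw [if_neg c1, if_neg (fun h => c1 h.1), zero_mul]
  · simp only [ha2]
    by_cases c1 : d2 x y u v = 1
    · by_cases c2 : 1 ≤ y v / s - y u / s
      · rw [if_pos c1, if_pos ⟨c1, c2⟩, max_eq_left (by linarith), one_mul]
      · rw [if_pos c1, if_neg (fun h => c2 h.2), max_eq_right (by linarith), zero_mul]
    · rw [if_neg c1, if_neg (fun h => c1 h.1), zero_mul]

end Pool.Agent.Lib.MP_17b37b_co
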