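import Mathlib

/-!
The hard-core chain with fugacity one on a path of `N` columns, with boundary weights that make
it exactly stationary, and the toggle moves that preserve it.
-/

namespace Pool.Agent.Lib.MP_17b37b_co

open Finset

/-- The inverse golden ratio. -/
noncomputable def ga : ℝ := (Real.sqrt 5 - 1) / 2

theorem ga_sq : ga ^ 2 + ga = 1 := by
  have h : Real.sqrt 5 ^ 2 = 5 := Real.sq_sqrt (by norm_num)
  unfold ga
  nlinarith

theorem ga_pos : 0 < ga := by
  have h : (1 : ℝ) < Real.sqrt 5 := by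
    rw [Real.lt_sqrt (by norm_num)]; norm_num
  unfold ga
  linarith

/-- No two consecutive numbers. -/
def Ind (s : Finset ℕ) : Prop := ∀ i ∈ s, i + 1 ∉ s

instance (s : Finset ℕ) : Decidable (Ind s) := by unfold Ind; infer_instance

/-- Boundary weight. -/
noncomputable def al (c : ℕ) (s : Finset ℕ) : ℝ := if c ∈ s then ga else 1

theorem al_pos (c : ℕ) (s : Finset ℕ) : 0 < al c s := by
  unfold al; split_ifs
  · exact ga_pos
  · exact one_pos

/-- Left weight. -/
noncomputable def lw (s : Finset ℕ) : ℝ := if Ind s then al 0 s else 0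

theorem lw_nonneg (s : Finset ℕ) : 0 ≤ lw s := by
  unfold lw; split_ifs
  · exact (al_pos _ _).le
  · exact le_rfl

/-- Sum with the left weight. -/
noncomputable def SS (N : ℕ) (G : Finset ℕ → ℝ) : ℝ := ∑ s ∈ (range N).powerset, lw s * G s

theorem SS_congr (N : ℕ) (G H : Finset ℕ → ℝ) (h : ∀ s, s ⊆ range N → G s = H s) :
    SS N G = SS N H := by
  unfold SS
  refine sum_congr rfl fun s hs => ?_
  rw [h s (mem_powerset.1 hs)]

theorem SS_congr' (N : ℕ) (G H : Finset ℕ → ℝ) (h : ∀ s, s ⊆ range N → Ind s → G s = H s) :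
    SS N G = SS N H := by
  unfold SS
  refine sum_congr rfl fun s hs => ?_
  by_cases hi : Ind s
  · rw [h s (mem_powerset.1 hs) hi]
  · simp [lw, hi]

theorem SS_mul (N : ℕ) (G : Finset ℕ → ℝ) (c : ℝ) :
    SS N (fun s => c * G s) = c * SS N G := by
  unfold SS
  rw [mul_sum]
  refine sum_congr rfl fun s _ => by ring

theorem lw_insert (n : ℕ) (s : Finset ℕ) (hs : s ⊆ range (n + 1)) :
    lw (insert (n + 1) s) = if n ∈ s then 0 else lw s := by
  have hn : ∀ k, n + 1 ≤ k → k ∉ s := fun k hk h => by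
    have := mem_range.1 (hs h); omega
  have h0 : al 0 (insert (n + 1) s) = al 0 s := by simp [al]
  by_cases h : n ∈ s
  · have : ¬ Ind (insert (n + 1) s) := fun hi =>
      hi n (mem_insert_of_mem h) (mem_insert_self _ _)
    simp [lw, this, h]
  · have : Ind (insert (n + 1) s) ↔ Ind s := by
      constructor
      · intro hi i hi1 hi2
        exact hi i (mem_insert_of_mem hi1) (mem_insert_of_mem hi2)
      · intro hi i hi1 hi2
        rcases mem_insert.1 hi1 with e1 | e1
        · rcases mem_insert.1 hi2 with e2 | e2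
          · omega
          · exact hn _ (by omega) e2
        · rcases mem_insert.1 hi2 with e2 | e2
          · have : i = n := by omega
            exact h (this ▸ e1)
          · exact hi i e1 e2
    simp only [lw, this, h0, h, if_false]

theorem SS_succ (n : ℕ) (G : Finset ℕ → ℝ) :
    SS (n + 2) G = SS (n + 1) (fun s => G s + if n ∈ s then 0 else G (insert (n + 1) s)) := by
  unfold SS
  rw [range_add_one, sum_powerset_insert notMem_range_self, ← sum_add_distrib]
  refine sum_congr rfl fun s hs => ?_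
  rw [lw_insert n s (mem_powerset.1 hs)]
  by_cases h : n ∈ s
  · simp [h]
  · simp only [h, if_false]; ring

theorem SS_one (G : Finset ℕ → ℝ) : SS 1 G = G ∅ + ga * G {0} := by
  unfold SS
  have h1 : lw ∅ = 1 := by simp [lw, Ind, al]
  have h2 : lw {0} = ga := by simp [lw, Ind, al]
  have : (range 1).powerset = {∅, {0}} := by decide
  rw [this, sum_pair (by decide), h1, h2, one_mul]

/-- The last column is occupied with left weight `φ^n a`, free with left weight `φ^n`. -/
theorem SS_last (n : ℕ) :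
    SS (n + 1) (fun s => if n ∈ s then 1 else 0) = (1 + ga) ^ n * ga ∧
    SS (n + 1) (fun s => if n ∈ s then 0 else 1) = (1 + ga) ^ n := by
  induction n with
  | zero => simp [SS_one]
  | succ n ih =>
    have hn : ∀ s : Finset ℕ, s ⊆ range (n + 1) → n + 1 ∉ s := fun s hs h => by
      have := mem_range.1 (hs h); omega
    constructor
    · rw [SS_succ, SS_congr (n + 1) _ (fun s => if n ∈ s then 0 else 1)
        (fun s hs => by simp [hn s hs]), ih.2, pow_succ]
      have := ga_sq
      have h2 : (1 + ga) * ga = 1 := by nlinarith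
      rw [mul_assoc, h2, mul_one]
    · rw [SS_succ, SS_congr (n + 1) _
        (fun s => (if n ∈ s then 1 else 0) + (if n ∈ s then 0 else 1))
        (fun s hs => by simp [hn s hs]; split_ifs <;> simp)]
      have : SS (n + 1) (fun s => (if n ∈ s then 1 else 0) + (if n ∈ s then 0 else 1)) =
          SS (n + 1) (fun s => if n ∈ s then 1 else 0) +
          SS (n + 1) (fun s => if n ∈ s then 0 else 1) := by
        unfold SS
        rw [← sum_add_distrib]
        exact sum_congr rfl fun s _ => by ring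
      rw [this, ih.1, ih.2, pow_succ]
      ring

theorem SS_back (n : ℕ) (G : Finset ℕ → ℝ) (hG : ∀ s k, n < k → G (insert k s) = G s) (m : ℕ) :
    SS (n + m + 1) (fun s => G s * al (n + m) s) =
      (1 + ga) ^ m * SS (n + 1) (fun s => G s * al n s) := by
  induction m with
  | zero => simp
  | succ m ih =>
    have hn : ∀ s : Finset ℕ, s ⊆ range (n + m + 1) → n + m + 1 ∉ s := fun s hs h => by
      have := mem_range.1 (hs h); omega
    have h2 : (1 + ga) * ga = 1 := by have := ga_sq; nlinarith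
    have e : n + (m + 1) + 1 = (n + m) + 2 := by ring
    have e' : n + (m + 1) = n + m + 1 := by ring
    rw [e, e', SS_succ, SS_congr (n + m + 1) _ (fun s => (1 + ga) * (G s * al (n + m) s)),
      SS_mul, ih, pow_succ]
    · ring
    · intro s hs
      rw [hG s (n + m + 1) (by omega)]
      by_cases h : n + m ∈ s
      · simp only [al, hn s hs, h, if_true, if_false]
        linear_combination (-G s) * h2
      · simp only [al, hn s hs, h, if_false, mem_insert_self, if_true]
        ring

/-- Expectation (not normalised) in the stationary chain on `n + 1` columns. -/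
noncomputable def EE (n : ℕ) (G : Finset ℕ → ℝ) : ℝ := SS (n + 1) (fun s => G s * al n s)

theorem EE_one (n : ℕ) : EE n (fun _ => 1) = (1 + ga) ^ n * (1 + ga ^ 2) := by
  have := SS_back 0 (fun _ => 1) (fun _ _ _ => rfl) n
  simp only [zero_add] at this
  unfold EE
  rw [this, SS_one]
  simp [al, sq]

theorem EE_mem (n c : ℕ) (hc : c ≤ n) :
    EE n (fun s => if c ∈ s then 1 else 0) = (1 + ga) ^ n * ga ^ 2 := by
  obtain ⟨m, rfl⟩ := Nat.exists_eq_add_of_le hc
  unfold EE
  rw [SS_back c (fun s => if c ∈ s then 1 else 0)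
    (fun s k hk => by simp [mem_insert, hk.ne]) m,
    SS_congr (c + 1) _ (fun s => ga * if c ∈ s then 1 else 0)
      (fun s _ => by by_cases h : c ∈ s <;> simp [al, h]), SS_mul, (SS_last c).1, pow_add]
  ring

theorem EE_mem2 (n c : ℕ) (hc : c + 2 ≤ n) :
    EE n (fun s => if c ∈ s ∧ c + 2 ∈ s then 1 else 0) = (1 + ga) ^ n * ga ^ 4 := by
  obtain ⟨m, rfl⟩ := Nat.exists_eq_add_of_le hc
  have h2 : (1 + ga) * ga = 1 := by have := ga_sq; nlinarith
  unfold EE
  rw [SS_back (c + 2) (fun s => if c ∈ s ∧ c + 2 ∈ s then 1 else 0)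
    (fun s k hk => by
      have h1 : c ≠ k := by omega
      have h2 : c + 2 ≠ k := by omega
      simp [mem_insert, h1, h2]) m]
  have e1 : SS (c + 2 + 1) (fun s => (if c ∈ s ∧ c + 2 ∈ s then 1 else 0) * al (c + 2) s) =
      SS (c + 2) (fun s => ga * if c ∈ s ∧ c + 1 ∉ s then 1 else 0) := by
    have e : c + 2 + 1 = (c + 1) + 2 := by ring
    rw [e, SS_succ]
    refine SS_congr _ _ _ fun s hs => ?_
    have h : c + 2 ∉ s := fun h => by have := mem_range.1 (hs h); omega
    have e2 : c + 1 + 1 = c + 2 := rfl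
    by_cases h0 : c ∈ s <;> by_cases h1 : c + 1 ∈ s <;> simp [al, h, h0, h1, e2]
  have e2 : SS (c + 2) (fun s => if c ∈ s ∧ c + 1 ∉ s then 1 else 0) =
      SS (c + 1) (fun s => if c ∈ s then 1 else 0) := by
    rw [SS_succ]
    refine SS_congr _ _ _ fun s hs => ?_
    have h : c + 1 ∉ s := fun h => by have := mem_range.1 (hs h); omega
    by_cases h0 : c ∈ s <;> simp [h, h0]
  rw [e1, SS_mul, e2, (SS_last c).1]
  have : (1 + ga) ^ (c + 2 + m) * ga ^ 4 =
      (1 + ga) ^ m * (ga * ((1 + ga) ^ c * ga)) * ((1 + ga) * ga) ^ 2 := by ring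
  rw [this, h2]
  ring

theorem EE_congr (n : ℕ) (G H : Finset ℕ → ℝ) (h : ∀ s, Ind s → G s = H s) :
    EE n G = EE n H := by
  unfold EE
  exact SS_congr' _ _ _ fun s _ hi => by rw [h s hi]

theorem EE_mono (n : ℕ) (G H : Finset ℕ → ℝ) (h : ∀ s, Ind s → G s ≤ H s) :
    EE n G ≤ EE n H := by
  unfold EE SS
  refine sum_le_sum fun s _ => ?_
  by_cases hi : Ind s
  · exact mul_le_mul_of_nonneg_left
      (mul_le_mul_of_nonneg_right (h s hi) (al_pos _ _).le) (lw_nonneg s)
  · simp [lw, hi]

theorem EE_mul (n : ℕ) (G : Finset ℕ → ℝ) (c : ℝ) :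
    EE n (fun s => c * G s) = c * EE n G := by
  unfold EE
  rw [← SS_mul]
  exact SS_congr _ _ _ fun s _ => by ring

theorem EE_sub (n : ℕ) (G H : Finset ℕ → ℝ) :
    EE n (fun s => G s - H s) = EE n G - EE n H := by
  unfold EE SS
  rw [← sum_sub_distrib]
  exact sum_congr rfl fun s _ => by ring

theorem EE_sum {ι : Type*} (n : ℕ) (T : Finset ι) (G : ι → Finset ℕ → ℝ) :
    EE n (fun s => ∑ i ∈ T, G i s) = ∑ i ∈ T, EE n (G i) := by
  unfold EE SS
  rw [sum_comm]
  refine sum_congr rfl fun s _ => ?_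
  simp only [sum_mul, mul_sum]

/-- Toggle column `c` unless a neighbouring column is occupied. -/
def tog (c : ℕ) (s : Finset ℕ) : Finset ℕ :=
  if c - 1 ∈ s ∨ c + 1 ∈ s then s else if c ∈ s then s.erase c else insert c s

theorem mem_tog_of_ne {c d : ℕ} (s : Finset ℕ) (h : d ≠ c) : d ∈ tog c s ↔ d ∈ s := by
  unfold tog
  split_ifs <;> simp [h]

theorem tog_tog {c : ℕ} (hc : 1 ≤ c) (s : Finset ℕ) : tog c (tog c s) = s := by
  have h1 : c - 1 ≠ c := by omega
  have h2 : c + 1 ≠ c := by omega
  ext d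
  by_cases hd : d = c
  · subst hd
    by_cases h : d - 1 ∈ s ∨ d + 1 ∈ s
    · simp [tog, h]
    · have h' : ¬ (d - 1 ∈ tog d s ∨ d + 1 ∈ tog d s) := by
        rwa [mem_tog_of_ne s h1, mem_tog_of_ne s h2]
      rw [tog, if_neg h']
      by_cases h3 : d ∈ s <;> simp [tog, h, h3]
  · rw [mem_tog_of_ne _ hd, mem_tog_of_ne _ hd]

theorem ind_tog {c : ℕ} (hc : 1 ≤ c) {s : Finset ℕ} (hs : Ind s) : Ind (tog c s) := by
  by_cases h : c - 1 ∈ s ∨ c + 1 ∈ s
  · rwa [tog, if_pos h]
  · intro i hi1 hi2
    rw [not_or] at h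
    by_cases e1 : i = c
    · subst e1
      rw [mem_tog_of_ne s (by omega)] at hi2
      exact h.2 hi2
    · rw [mem_tog_of_ne s e1] at hi1
      by_cases e2 : i + 1 = c
      · have : c - 1 = i := by omega
        exact h.1 (this ▸ hi1)
      · rw [mem_tog_of_ne s e2] at hi2
        exact hs i hi1 hi2

theorem not_mem_tog {c d : ℕ} {s : Finset ℕ} (hs : Ind s) (hd : d ∈ s)
    (h : d = c ∨ d + 1 = c ∨ d = c + 1) (hc : 1 ≤ c) : c ∉ tog c s := by
  rcases h with h | h | h
  · subst h
    have h1 : ¬ (d - 1 ∈ s ∨ d + 1 ∈ s) := by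
      rintro (h | h)
      · have := hs _ h
        rw [Nat.sub_add_cancel hc] at this
        exact this hd
      · exact hs d hd h
    simp [tog, h1, hd]
  · subst h
    have h1 : d + 1 - 1 ∈ s ∨ d + 1 + 1 ∈ s := Or.inl (by simpa using hd)
    rw [tog, if_pos h1]
    exact hs d hd
  · subst h
    have h1 : c - 1 ∈ s ∨ c + 1 ∈ s := Or.inr hd
    rw [tog, if_pos h1]
    exact fun h => hs c h hd

theorem EE_tog (n c : ℕ) (hc : 1 ≤ c) (hn : c < n) (G : Finset ℕ → ℝ) :
    EE n (fun s => G (tog c s)) = EE n G := by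
  unfold EE SS
  have hsub : ∀ s ∈ (range (n + 1)).powerset, tog c s ∈ (range (n + 1)).powerset := by
    intro s hs
    rw [mem_powerset] at hs ⊢
    intro d hd
    by_cases e : d = c
    · rw [mem_range]; omega
    · exact hs ((mem_tog_of_ne s e).1 hd)
  refine sum_nbij' (tog c) (tog c) hsub hsub (fun s _ => tog_tog hc s) (fun s _ => tog_tog hc s) ?_
  intro s _
  have h0 : al 0 (tog c s) = al 0 s := by
    simp only [al, mem_tog_of_ne s (show 0 ≠ c by omega)]
  have h1 : al n (tog c s) = al n s := by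
    simp only [al, mem_tog_of_ne s (show n ≠ c by omega)]
  have h2 : Ind (tog c s) ↔ Ind s :=
    ⟨fun h => by have := ind_tog hc h; rwa [tog_tog hc] at this, ind_tog hc⟩
  simp only [lw, h0, h1, h2]

end Pool.Agent.Lib.MP_17b37b_co
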