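import Mathlib

/-!
A time order on the vertices that refines the left-to-right order of each column and in which
no vertex of the column of the earlier end of an edge comes between the two ends.
-/

namespace Pool.Agent.Lib.MP_17b37b_co

open Finset

open Classical in
theorem order_aux {V : Type*} (x : V → ℝ) (col : V → ℕ) (adj : V → V → Prop) (S : Finset V)
    (hV2 : ∀ b1 ∈ S, ∀ t1 ∈ S, ∀ b2 ∈ S, ∀ t2 ∈ S, adj b1 t1 → adj b2 t2 → ∀ m, col b1 < m →
      m ≤ col t1 → col b2 < m → m ≤ col t2 → x t1 < x t2 → x b1 ≤ x b2)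
    (hR1 : ∀ b ∈ S, ∀ t ∈ S, ∀ z ∈ S, adj b t → col b < col z → col z < col t →
      x b < x z → x t < x z)
    (hR2 : ∀ b ∈ S, ∀ t ∈ S, ∀ z ∈ S, adj b t → col b < col z → col z < col t →
      x z ≤ x b → x z ≤ x t) (m : ℕ) :
    ∃ τ : V → ℕ, (∀ v ∈ S, col v < m → 1 ≤ τ v) ∧
      (∀ u ∈ S, ∀ v ∈ S, col u < m → col u = col v → x u < x v → τ u < τ v) ∧
      (∀ b ∈ S, ∀ t ∈ S, ∀ z ∈ S, adj b t → col z < m → col b < col z → col z ≤ col t →
        x t < x z → τ b < τ z) ∧
      (∀ b ∈ S, ∀ t ∈ S, ∀ z ∈ S, ∀ b' ∈ S, adj b t → col z < m → col b < col z →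
        col z ≤ col t → x z ≤ x t → col b' = col b → x b < x b' → τ z < τ b') := by
  induction m with
  | zero => exact ⟨fun _ => 0, by simp, by simp, by simp, by simp⟩
  | succ m ih =>
    obtain ⟨τ, h0, hM, hC, hB⟩ := ih
    set P : V → Finset (V × V) := fun z => (S ×ˢ S).filter
      (fun p => adj p.1 p.2 ∧ col p.1 < m ∧ m ≤ col p.2 ∧ x p.2 < x z) with hP
    set lo : V → ℕ := fun z => (P z).sup (fun p => τ p.1) with hlo
    set rk : V → ℕ := fun z => (S.filter (fun u => x u ≤ x z)).card with hrk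
    set M := S.card + 1 with hMd
    have rk1 : ∀ z ∈ S, 1 ≤ rk z := fun z hz =>
      card_pos.2 ⟨z, mem_filter.2 ⟨hz, le_rfl⟩⟩
    have rk2 : ∀ z, rk z < M := fun z => Nat.lt_succ_of_le (card_filter_le _ _)
    have rk3 : ∀ u, ∀ v ∈ S, x u < x v → rk u < rk v := by
      intro u v hv h
      refine card_lt_card ⟨fun w hw => ?_, fun hs => ?_⟩
      · rw [mem_filter] at hw ⊢
        exact ⟨hw.1, hw.2.trans h.le⟩
      · have := hs (mem_filter.2 ⟨hv, le_rfl⟩)
        rw [mem_filter] at this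
        linarith [this.2]
    have lo1 : ∀ u v, x u < x v → lo u ≤ lo v := by
      intro u v h
      refine sup_mono fun p hp => ?_
      simp only [hP, mem_filter] at hp ⊢
      exact ⟨hp.1, hp.2.1, hp.2.2.1, hp.2.2.2.1, hp.2.2.2.2.trans h⟩
    have lo2 : ∀ b ∈ S, ∀ t ∈ S, ∀ z, adj b t → col b < m → m ≤ col t → x t < x z →
        τ b ≤ lo z := by
      intro b hb t ht z h1 h2 h3 h4
      have : (b, t) ∈ P z := by
        simp only [hP, mem_filter, mem_product]
        exact ⟨⟨hb, ht⟩, h1, h2, h3, h4⟩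
      exact le_sup (f := fun p : V × V => τ p.1) this
    have lo3 : ∀ b ∈ S, ∀ t ∈ S, ∀ z, ∀ b' ∈ S, adj b t → col b < m → m ≤ col t → x z ≤ x t →
        col b' = col b → x b < x b' → lo z < τ b' := by
      intro b2 hb2 t2 ht2 z b' hb' h1 h2 h3 h4 h5 h6
      have hpos : (⊥ : ℕ) < τ b' := h0 b' hb' (by omega)
      rw [hlo]
      refine (Finset.sup_lt_iff hpos).2 fun p hp => ?_
      simp only [hP, mem_filter, mem_product] at hp
      obtain ⟨⟨hb1, ht1⟩, g1, g2, g3, g4⟩ := hp
      have hx := hV2 _ hb1 _ ht1 _ hb2 _ ht2 g1 h1 m g2 g3 h2 h3 (g4.trans_le h4)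
      rcases lt_trichotomy (col p.1) (col b2) with h | h | h
      · refine hC _ hb1 _ ht1 _ hb' g1 (by omega) (by omega) (by omega) ?_
        exact hR1 _ hb1 _ ht1 _ hb' g1 (by omega) (by omega) (hx.trans_lt h6)
      · exact hM _ hb1 _ hb' g2 (by omega) (hx.trans_lt h6)
      · refine hB _ hb2 _ ht2 _ hb1 _ hb' h1 g2 h (by omega) ?_ h5 h6
        exact hR2 _ hb2 _ ht2 _ hb1 h1 h (by omega) hx
    have hMpos : 0 < M := Nat.succ_pos _
    refine ⟨fun v => if col v = m then M * lo v + rk v else M * τ v, ?_, ?_, ?_, ?_⟩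
    · intro v hv h
      by_cases e : col v = m
      · simp only [e, if_true]
        have := rk1 v hv
        omega
      · simp only [e, if_false]
        exact Nat.mul_pos hMpos (h0 v hv (by omega))
    · intro u hu v hv h1 h2 h3
      by_cases e : col u = m
      · have e' : col v = m := by omega
        simp only [e, e', if_true]
        have := Nat.mul_le_mul_left M (lo1 u v h3)
        have := rk3 u v hv h3
        omega
      · have e' : col v ≠ m := by omega
        simp only [e, e', if_false]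
        exact Nat.mul_lt_mul_of_pos_left (hM u hu v hv (by omega) h2 h3) hMpos
    · intro b hb t ht z hz h1 h2 h3 h4 h5
      have e' : col b ≠ m := by omega
      by_cases e : col z = m
      · simp only [e, e', if_true, if_false]
        have := Nat.mul_le_mul_left M (lo2 b hb t ht z h1 (by omega) (by omega) h5)
        have := rk1 z hz
        omega
      · simp only [e, e', if_false]
        exact Nat.mul_lt_mul_of_pos_left (hC b hb t ht z hz h1 (by omega) h3 h4 h5) hMpos
    · intro b hb t ht z hz b' hb' h1 h2 h3 h4 h5 h6 h7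
      have e' : col b' ≠ m := by omega
      by_cases e : col z = m
      · simp only [e, e', if_true, if_false]
        have h8 := lo3 b hb t ht z b' hb' h1 (by omega) (by omega) h5 h6 h7
        have := Nat.mul_le_mul_left M (Nat.succ_le_of_lt h8)
        have := rk2 z
        rw [Nat.mul_succ] at *
        omega
      · simp only [e, e', if_false]
        exact Nat.mul_lt_mul_of_pos_left
          (hB b hb t ht z hz b' hb' h1 (by omega) h3 h4 h5 h6 h7) hMpos

theorem order_exists {V : Type*} (x : V → ℝ) (col : V → ℕ) (adj : V → V → Prop)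
    (hsymm : ∀ u v, adj u v → adj v u) (S : Finset V)
    (hx : ∀ u ∈ S, ∀ v ∈ S, col u = col v → x u = x v → u = v)
    (hV1 : ∀ u ∈ S, ∀ v ∈ S, ∀ z ∈ S, adj u v → col u = col v → col z = col u →
      x u < x z → x v ≤ x z)
    (hV2 : ∀ b1 ∈ S, ∀ t1 ∈ S, ∀ b2 ∈ S, ∀ t2 ∈ S, adj b1 t1 → adj b2 t2 → ∀ m, col b1 < m →
      m ≤ col t1 → col b2 < m → m ≤ col t2 → x t1 < x t2 → x b1 ≤ x b2)
    (hR1 : ∀ b ∈ S, ∀ t ∈ S, ∀ z ∈ S, adj b t → col b < col z → col z < col t →
      x b < x z → x t < x z)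
    (hR2 : ∀ b ∈ S, ∀ t ∈ S, ∀ z ∈ S, adj b t → col b < col z → col z < col t →
      x z ≤ x b → x z ≤ x t) :
    ∃ τ : V → ℕ, (∀ u ∈ S, ∀ v ∈ S, col u = col v → τ u = τ v → u = v) ∧
      (∀ u ∈ S, ∀ v ∈ S, ∀ w ∈ S, adj u v → col w = col u → w ≠ v → τ u < τ w → τ v < τ w) := by
  obtain ⟨τ, -, hM, hC, hB⟩ := order_aux x col adj S hV2 hR1 hR2 (S.sup col + 1)
  have hm : ∀ v ∈ S, col v < S.sup col + 1 := fun v hv => Nat.lt_succ_of_le (le_sup hv)
  refine ⟨τ, ?_, ?_⟩
  · intro u hu v hv h1 h2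
    rcases lt_trichotomy (x u) (x v) with h | h | h
    · have := hM u hu v hv (hm u hu) h1 h
      omega
    · exact hx u hu v hv h1 h
    · have := hM v hv u hu (hm v hv) h1.symm h
      omega
  · intro u hu v hv w hw h1 h2 h3 h4
    have hxuw : x u < x w := by
      rcases lt_trichotomy (x u) (x w) with h | h | h
      · exact h
      · have := hx u hu w hw h2.symm h
        subst this
        omega
      · have := hM w hw u hu (hm w hw) h2 h
        omega
    rcases lt_trichotomy (col u) (col v) with h | h | h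
    · exact hB u hu v hv v hv w hw h1 (hm v hv) h le_rfl le_rfl h2 hxuw
    · have h5 := hV1 u hu v hv w hw h1 h h2 hxuw
      rcases h5.lt_or_eq with h6 | h6
      · exact hM v hv w hw (hm v hv) (by omega) h6
      · exact absurd (hx v hv w hw (by omega) h6).symm h3
    · exact hC v hv u hu w hw (hsymm _ _ h1) (hm w hw) (by omega) (by omega) hxuw

end Pool.Agent.Lib.MP_17b37b_co
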