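import Pool.Agent.Lib.MP_17b37b_co.TToggle
import Pool.Agent.Lib.MP_17b37b_co.TOrder

/-!
The geometric step for a fixed direction and a fixed family of strips.
-/

namespace Pool.Agent.Lib.MP_17b37b_co

open Finset

/-- Squared distance in coordinates. -/
def d2 {V : Type*} (x y : V → ℝ) (u v : V) : ℝ := (x u - x v) ^ 2 + (y u - y v) ^ 2

theorem d2_comm {V : Type*} (x y : V → ℝ) (u v : V) : d2 x y u v = d2 x y v u := by
  unfold d2; ring

theorem rect {V : Type*} (x y : V → ℝ) (b t z : V) (h : d2 x y b t = 1) (h1 : 1 ≤ d2 x y z b)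
    (h2 : 1 ≤ d2 x y z t) (hy : (y z - y b) * (y z - y t) ≤ 0) :
    0 < (x z - x b) * (x z - x t) := by
  unfold d2 at *
  nlinarith

theorem tri_aux (c σ a h r : ℝ) (e : c ^ 2 + σ ^ 2 = 1) (ha : 0 ≤ a) (hac : a ≤ c) (hσ : 0 ≤ σ)
    (hh : σ ≤ h) (hr : r = a ^ 2 + h ^ 2) (h3 : 1 ≤ (a - c) ^ 2 + (h - σ) ^ 2) :
    a ^ 2 ≤ 1 ∧ 4 * a ^ 2 ≤ r ^ 2 := by
  have hc : c ≤ 1 := by nlinarith
  have t1 : σ * σ ≤ h * σ := mul_le_mul_of_nonneg_right hh hσ
  have t2 : (1 - c) * a ≤ (1 - c) * (1 + c) :=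
    mul_le_mul_of_nonneg_left (by linarith) (by linarith)
  have t3 : 2 * a ≤ r := by nlinarith
  constructor
  · nlinarith
  · nlinarith

/-- The pair condition under which the upper point `v` is deleted. -/
def Del {V : Type*} (x y : V → ℝ) (u v : V) : Prop :=
  u ≠ v ∧ y u ≤ y v ∧ (x u - x v) ^ 2 ≤ 1 ∧ 4 * (x u - x v) ^ 2 ≤ (d2 x y u v) ^ 2

theorem tri {V : Type*} (x y : V → ℝ) (u v z : V) (h : d2 x y u v = 1) (h1 : 1 ≤ d2 x y z u)
    (h2 : 1 ≤ d2 x y z v) (hx1 : x u < x z) (hx2 : x z < x v) :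
    Del x y u z ∨ Del x y v z ∨ Del x y z u ∨ Del x y z v := by
  have n1 : u ≠ z := fun e => by rw [e] at hx1; exact lt_irrefl _ hx1
  have n2 : v ≠ z := fun e => by rw [e] at hx2; exact lt_irrefl _ hx2
  have hy : 0 < (y z - y u) * (y z - y v) := by
    by_contra hc
    have := rect x y u v z h h1 h2 (not_lt.1 hc)
    nlinarith
  unfold d2 at h h1 h2
  rcases le_total (y u) (y v) with huv | huv
  · rcases le_total (y v) (y z) with hz | hz
    · left
      have := tri_aux (x v - x u) (y v - y u) (x z - x u) (y z - y u) (d2 x y u z)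
        (by linarith) (by linarith) (by linarith) (by linarith) (by linarith)
        (by unfold d2; ring) (by linarith)
      exact ⟨n1, by linarith, by linarith [this.1], by linarith [this.2]⟩
    · have hz' : y z ≤ y u := by
        by_contra hc
        nlinarith [mul_nonneg (sub_nonneg.2 (not_le.1 hc).le) (sub_nonneg.2 hz)]
      right; right; right
      have := tri_aux (x v - x u) (y v - y u) (x v - x z) (y v - y z) (d2 x y z v)
        (by linarith) (by linarith) (by linarith) (by linarith) (by linarith)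
        (by unfold d2; ring) (by linarith)
      exact ⟨n2.symm, by linarith, by linarith [this.1], by linarith [this.2]⟩
  · rcases le_total (y u) (y z) with hz | hz
    · right; left
      have := tri_aux (x v - x u) (y u - y v) (x v - x z) (y z - y v) (d2 x y v z)
        (by linarith) (by linarith) (by linarith) (by linarith) (by linarith)
        (by unfold d2; ring) (by linarith)
      exact ⟨n2, by linarith, by linarith [this.1], by linarith [this.2]⟩
    · have hz' : y z ≤ y v := by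
        by_contra hc
        nlinarith [mul_nonneg (sub_nonneg.2 (not_le.1 hc).le) (sub_nonneg.2 hz)]
      right; right; left
      have := tri_aux (x v - x u) (y u - y v) (x z - x u) (y u - y z) (d2 x y z u)
        (by linarith) (by linarith) (by linarith) (by linarith) (by linarith)
        (by unfold d2; ring) (by linarith)
      exact ⟨n1.symm, by linarith, by linarith [this.1], by linarith [this.2]⟩

theorem cross {V : Type*} (x y : V → ℝ) (b1 t1 b2 t2 : V) (e1 : d2 x y b1 t1 = 1)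
    (e2 : d2 x y b2 t2 = 1) (h1 : 1 ≤ d2 x y b1 t2) (h2 : 1 ≤ d2 x y t1 b2)
    (h3 : x b2 < x b1 → 1 ≤ d2 x y b1 b2) (h4 : 1 ≤ d2 x y t1 t2)
    (y1 : y b1 < y t2) (y2 : y b2 < y t1) (hx : x t1 < x t2) : x b1 ≤ x b2 := by
  by_contra hc
  have hc := not_le.1 hc
  have h3 := h3 hc
  have k : 0 < (y t1 - y t2) * (y b1 - y b2) := by
    unfold d2 at *
    nlinarith [mul_pos (sub_pos.2 hx) (sub_pos.2 hc)]
  rcases lt_or_ge (y t2) (y t1) with g | g
  · have g' : y b2 < y b1 := by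
      by_contra hh
      nlinarith [mul_nonneg (sub_nonneg.2 g.le) (sub_nonneg.2 (not_lt.1 hh))]
    have r1 := rect x y b2 t2 b1 e2 h3 h1
      (mul_nonpos_of_nonneg_of_nonpos (by linarith) (by linarith))
    have r2 := rect x y b1 t1 t2 e1 (d2_comm x y _ _ ▸ h1) (d2_comm x y _ _ ▸ h4)
      (mul_nonpos_of_nonneg_of_nonpos (by linarith) (by linarith))
    have s1 : 0 < x b1 - x t2 := (pos_iff_pos_of_mul_pos r1).1 (by linarith)
    have s2 : 0 < x t2 - x b1 := (pos_iff_pos_of_mul_pos r2).2 (by linarith)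
    linarith
  · have g' : y b1 < y b2 := by
      by_contra hh
      nlinarith [mul_nonneg (sub_nonneg.2 g) (sub_nonneg.2 (not_lt.1 hh))]
    have r1 := rect x y b1 t1 b2 e1 (d2_comm x y _ _ ▸ h3) (d2_comm x y _ _ ▸ h2)
      (mul_nonpos_of_nonneg_of_nonpos (by linarith) (by linarith))
    have r2 := rect x y b2 t2 t1 e2 h2 h4
      (mul_nonpos_of_nonneg_of_nonpos (by linarith) (by linarith))
    have s1 : x b2 - x t1 < 0 := (neg_iff_neg_of_mul_pos r1).1 (by linarith)
    have s2 : x t1 - x b2 < 0 := (neg_iff_neg_of_mul_pos r2).2 (by linarith)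
    linarith

open Classical in
theorem strip_bound_nat {V : Type*} (x y : V → ℝ) (X : Finset V)
    (hsep : ∀ u ∈ X, ∀ v ∈ X, u ≠ v → 1 ≤ d2 x y u v) (col : V → ℕ)
    (hpos : ∀ v ∈ X, 1 ≤ col v)
    (hmono : ∀ u ∈ X, ∀ v ∈ X, col u < col v → y u < y v)
    (hsame : ∀ u ∈ X, ∀ v ∈ X, col u = col v → (y u - y v) ^ 2 < 1)
    (hspan : ∀ u ∈ X, ∀ v ∈ X, y v - y u ≤ 1 → col v ≤ col u + 2)
    (w : V → ℝ) (hw : ∀ v ∈ X, 0 ≤ w v) (A : ℝ)
    (hA : ∀ I ⊆ X, (∀ u ∈ I, ∀ v ∈ I, d2 x y u v ≠ 1) → ∑ v ∈ I, w v ≤ A) :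
    ∑ v ∈ X, w v * (ga ^ 2 - ∑ u ∈ X,
      (ga ^ 2 * (if Del x y u v ∧ col u = col v then 1 else 0) +
        ga ^ 4 * (if d2 x y u v = 1 ∧ col u + 2 = col v then 1 else 0))) ≤ (1 + ga ^ 2) * A := by
  set S := X.filter (fun v => ¬ ∃ u ∈ X, Del x y u v ∧ col u = col v) with hS
  have hSX : S ⊆ X := filter_subset _ _
  have hSd : ∀ v ∈ S, ∀ u ∈ S, Del x y u v → col u ≠ col v := fun v hv u hu h1 h2 =>
    (mem_filter.1 hv).2 ⟨u, hSX hu, h1, h2⟩
  have hsymm : ∀ u v, d2 x y u v = 1 → d2 x y v u = 1 := fun u v h => d2_comm x y u v ▸ h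
  have hne : ∀ u v, col u ≠ col v → u ≠ v := fun u v h e => h (e ▸ rfl)
  have hnx : ∀ u v, x u < x v → u ≠ v := fun u v h e => by
    rw [e] at h; exact lt_irrefl _ h
  have hR : ∀ b ∈ S, ∀ t ∈ S, ∀ z ∈ S, d2 x y b t = 1 → col b < col z → col z < col t →
      0 < (x z - x b) * (x z - x t) := by
    intro b hb t ht z hz h1 h2 h3
    have y1 := hmono b (hSX hb) z (hSX hz) h2
    have y2 := hmono z (hSX hz) t (hSX ht) h3
    exact rect x y b t z h1 (hsep z (hSX hz) b (hSX hb) (hne _ _ h2.ne'))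
      (hsep z (hSX hz) t (hSX ht) (hne _ _ h3.ne))
      (mul_nonpos_of_nonneg_of_nonpos (by linarith) (by linarith))
  obtain ⟨τ, hinj, H⟩ := order_exists x col (fun u v => d2 x y u v = 1) hsymm S
    (by
      intro u hu v hv h1 h2
      by_contra hc
      have t1 := hsep u (hSX hu) v (hSX hv) hc
      have t2 := hsame u (hSX hu) v (hSX hv) h1
      unfold d2 at t1
      rw [h2] at t1
      nlinarith)
    (by
      intro u hu v hv z hz h1 h2 h3 h4
      by_contra hc
      have hc := not_le.1 hc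
      rcases tri x y u v z h1 (hsep z (hSX hz) u (hSX hu) (hnx _ _ h4).symm)
        (hsep z (hSX hz) v (hSX hv) (hnx _ _ hc)) h4 hc with h | h | h | h
      · exact hSd _ hz _ hu h (by omega)
      · exact hSd _ hz _ hv h (by omega)
      · exact hSd _ hu _ hz h (by omega)
      · exact hSd _ hv _ hz h (by omega))
    (by
      intro b1 hb1 t1 ht1 b2 hb2 t2 ht2 e1 e2 m g1 g2 g3 g4 hx
      exact cross x y b1 t1 b2 t2 e1 e2
        (hsep _ (hSX hb1) _ (hSX ht2) (hne _ _ (by omega)))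
        (hsep _ (hSX ht1) _ (hSX hb2) (hne _ _ (by omega)))
        (fun h => hsep _ (hSX hb1) _ (hSX hb2) (hnx _ _ h).symm)
        (hsep _ (hSX ht1) _ (hSX ht2) (hnx _ _ hx))
        (hmono _ (hSX hb1) _ (hSX ht2) (by omega))
        (hmono _ (hSX hb2) _ (hSX ht1) (by omega)) hx)
    (by
      intro b hb t ht z hz h1 h2 h3 h4
      have := (pos_iff_pos_of_mul_pos (hR b hb t ht z hz h1 h2 h3)).1 (by linarith)
      linarith)
    (by
      intro b hb t ht z hz h1 h2 h3 h4
      by_contra hc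
      have := (pos_iff_pos_of_mul_pos (hR b hb t ht z hz h1 h2 h3)).2 (by linarith)
      linarith)
  have hT := toggle_bound (X.sup col + 1) col (fun u v => d2 x y u v = 1) hsymm
    (fun u => by simp [d2]) τ S
    (fun v hv => ⟨hpos v (hSX hv), Nat.lt_succ_of_le (le_sup (hSX hv))⟩) hinj H
    (fun u hu v hv h => hspan u (hSX hu) v (hSX hv) (by
      unfold d2 at h
      nlinarith [sq_nonneg (x u - x v), sq_nonneg (y v - y u - 1)]))
    w (fun v hv => hw v (hSX hv)) A (fun I hI h => hA I (hI.trans hSX) h)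
  refine le_trans ?_ hT
  have g2 : 0 < ga ^ 2 := pow_pos ga_pos 2
  have g4 : 0 < ga ^ 4 := pow_pos ga_pos 4
  have n1 : ∀ u v, (0 : ℝ) ≤ if Del x y u v ∧ col u = col v then 1 else 0 := fun u v => by
    split_ifs <;> norm_num
  have n2 : ∀ u v, (0 : ℝ) ≤ if d2 x y u v = 1 ∧ col u + 2 = col v then 1 else 0 :=
    fun u v => by split_ifs <;> norm_num
  rw [← sum_filter_add_sum_filter_not X (fun v => ¬ ∃ u ∈ X, Del x y u v ∧ col u = col v), ← hS]
  refine add_le_of_le_of_nonpos (sum_le_sum fun v hv => ?_) (sum_nonpos fun v hv => ?_)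
  · refine mul_le_mul_of_nonneg_left ?_ (hw v (hSX hv))
    rw [sum_add_distrib, ← mul_sum, ← mul_sum]
    have t1 := sum_nonneg (fun u (_ : u ∈ X) => n1 u v)
    have t2 := sum_le_sum_of_subset_of_nonneg hSX (fun u _ _ => n2 u v)
    have t3 := mul_le_mul_of_nonneg_left t2 g4.le
    have t4 := mul_nonneg g2.le t1
    linarith
  · rw [mem_filter, not_not] at hv
    obtain ⟨hv, u, hu, hd⟩ := hv
    refine mul_nonpos_of_nonneg_of_nonpos (hw v hv) ?_
    rw [sum_add_distrib, ← mul_sum, ← mul_sum]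
    have t1 := single_le_sum (fun u (_ : u ∈ X) => n1 u v) hu
    rw [if_pos hd] at t1
    have t2 := mul_nonneg g4.le (sum_nonneg (fun u (_ : u ∈ X) => n2 u v))
    have t3 := mul_le_mul_of_nonneg_left t1 g2.le
    linarith

open Classical in
theorem strip_bound {V : Type*} (x y : V → ℝ) (X : Finset V)
    (hsep : ∀ u ∈ X, ∀ v ∈ X, u ≠ v → 1 ≤ d2 x y u v) (col : V → ℤ)
    (hmono : ∀ u ∈ X, ∀ v ∈ X, col u < col v → y u < y v)
    (hsame : ∀ u ∈ X, ∀ v ∈ X, col u = col v → (y u - y v) ^ 2 < 1)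
    (hspan : ∀ u ∈ X, ∀ v ∈ X, y v - y u ≤ 1 → col v ≤ col u + 2)
    (w : V → ℝ) (hw : ∀ v ∈ X, 0 ≤ w v) (A : ℝ)
    (hA : ∀ I ⊆ X, (∀ u ∈ I, ∀ v ∈ I, d2 x y u v ≠ 1) → ∑ v ∈ I, w v ≤ A) :
    ∑ v ∈ X, w v * (ga ^ 2 - ∑ u ∈ X,
      (ga ^ 2 * (if Del x y u v ∧ col u = col v then 1 else 0) +
        ga ^ 4 * (if d2 x y u v = 1 ∧ col u + 2 = col v then 1 else 0))) ≤ (1 + ga ^ 2) * A := by
  obtain ⟨K, hK⟩ := (X.image col).bddBelow
  have hK' : ∀ v ∈ X, K ≤ col v := fun v hv => hK (mem_coe.2 (mem_image_of_mem col hv))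
  have := strip_bound_nat x y X hsep (fun v => (col v - K + 1).toNat)
    (fun v hv => by have := hK' v hv; omega)
    (fun u hu v hv h => hmono u hu v hv (by have := hK' v hv; have := hK' u hu; omega))
    (fun u hu v hv h => hsame u hu v hv (by have := hK' v hv; have := hK' u hu; omega))
    (fun u hu v hv h => by
      have := hspan u hu v hv h; have := hK' v hv; have := hK' u hu; omega) w hw A hA
  refine le_trans (le_of_eq ?_) this
  refine sum_congr rfl fun v hv => ?_
  congr 2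
  refine sum_congr rfl fun u hu => ?_
  have e1 : ((col u - K + 1).toNat = (col v - K + 1).toNat) ↔ col u = col v := by
    have := hK' v hv; have := hK' u hu; omega
  have e2 : ((col u - K + 1).toNat + 2 = (col v - K + 1).toNat) ↔ col u + 2 = col v := by
    have := hK' v hv; have := hK' u hu; omega
  simp only [e1, e2]

end Pool.Agent.Lib.MP_17b37b_co
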