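import Pool.Agent.Lib.MP_17b37b_co.TChain

/-!
Integrals over the direction.
-/

namespace Pool.Agent.Lib.MP_17b37b_co

open Real MeasureTheory

theorem cos_ii (f : ℝ → ℝ) (hf : Measurable f) (C : ℝ) (hC : ∀ c, |c| ≤ 1 → |f c| ≤ C)
    (ψ a b : ℝ) : IntervalIntegrable (fun θ => f (cos (θ - ψ))) volume a b := by
  refine (intervalIntegrable_const (c := C)).mono_fun' ?_ ?_
  · exact (hf.comp (by fun_prop)).aestronglyMeasurable
  · exact Filter.Eventually.of_forall fun θ => hC _ (abs_cos_le_one _)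

theorem cos_ii0 (f : ℝ → ℝ) (hf : Measurable f) (C : ℝ) (hC : ∀ c, |c| ≤ 1 → |f c| ≤ C)
    (a b : ℝ) : IntervalIntegrable (fun θ => f (cos θ)) volume a b := by
  simpa using cos_ii f hf C hC 0 a b

theorem cos_int (f : ℝ → ℝ) (hf : Measurable f) (C : ℝ) (hC : ∀ c, |c| ≤ 1 → |f c| ≤ C)
    (ψ : ℝ) : ∫ θ in (0 : ℝ)..2 * π, f (cos (θ - ψ)) = 2 * ∫ u in (0 : ℝ)..π, f (cos u) := by
  have hp : Function.Periodic (fun u => f (cos u)) (2 * π) := fun u => by simp
  rw [intervalIntegral.integral_comp_sub_right (fun u => f (cos u)) ψ]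
  have h1 := hp.intervalIntegral_add_eq (0 - ψ) (-π)
  have e1 : 0 - ψ + 2 * π = 2 * π - ψ := by ring
  have e2 : -π + 2 * π = π := by ring
  rw [e1, e2] at h1
  rw [h1, ← intervalIntegral.integral_add_adjacent_intervals (b := 0)
    (cos_ii0 f hf C hC _ _) (cos_ii0 f hf C hC _ _)]
  have h2 := intervalIntegral.integral_comp_neg (a := 0) (b := π) (fun u => f (cos u))
  simp only [cos_neg, neg_zero] at h2
  rw [← h2]
  ring

/-- The optimal angle. -/
noncomputable def be : ℝ := arcsin ((5 + √5) / 20)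

theorem sqrt5_bounds : (2.236067 : ℝ) < √5 ∧ √5 < 2.236068 := by
  constructor
  · rw [Real.lt_sqrt (by norm_num)]; norm_num
  · rw [Real.sqrt_lt' (by norm_num)]; norm_num

theorem sin_be : sin be = (5 + √5) / 20 := by
  obtain ⟨h1, h2⟩ := sqrt5_bounds
  exact sin_arcsin (by linarith) (by linarith)

theorem be_gt : 0.37015 ≤ be := by
  obtain ⟨h1, h2⟩ := sqrt5_bounds
  have hpi := pi_gt_d2
  unfold be
  rw [le_arcsin_iff_sin_le' ⟨by linarith, by linarith⟩]
  have := sin_bound (x := 0.37015) (by rw [abs_of_pos] <;> norm_num)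
  rw [abs_le, abs_of_pos (by norm_num)] at this
  have h3 := this.2
  norm_num at h3 ⊢
  linarith

theorem be_le : be ≤ π / 6 := by
  obtain ⟨h1, h2⟩ := sqrt5_bounds
  have hpi := pi_pos
  unfold be
  rw [arcsin_le_iff_le_sin' ⟨by linarith, by linarith⟩, sin_pi_div_six]
  linarith

theorem cos_be : 0.932 ≤ cos be ∧ cos be ≤ 0.9323 := by
  obtain ⟨h1, h2⟩ := sqrt5_bounds
  have h0 : 0 ≤ cos be := cos_arcsin_nonneg _
  have h3 := sin_sq_add_cos_sq be
  have h4 : √5 ^ 2 = 5 := Real.sq_sqrt (by norm_num)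
  rw [sin_be] at h3
  have h5 : cos be ^ 2 = 1 - (30 + 10 * √5) / 400 := by nlinarith
  constructor
  · exact (abs_le_of_sq_le_sq' (by rw [h5]; linarith) h0).2
  · exact (abs_le_of_sq_le_sq' (by rw [h5]; linarith) (by norm_num)).2

theorem ga_sq_eq : ga ^ 2 = (3 - √5) / 2 := by
  have h := ga_sq
  unfold ga at *
  linarith

theorem sin_be' : (1 + ga ^ 2) * sin be = 1 / 2 := by
  have h4 : √5 ^ 2 = 5 := Real.sq_sqrt (by norm_num)
  rw [ga_sq_eq, sin_be]
  nlinarith

/-- Loss from deleted tops. -/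
noncomputable def lossT (r c : ℝ) : ℝ :=
  if 0 ≤ c ∧ 4 * (1 - c ^ 2) ≤ r ^ 2 then max (1 - r * c / cos be) 0 else 0

/-- Loss from long edges. -/
noncomputable def lossL (c : ℝ) : ℝ := max (c / cos be - 1) 0

theorem lossT_meas (r : ℝ) : Measurable (lossT r) := by
  unfold lossT
  refine Measurable.ite ?_ (by fun_prop) measurable_const
  have h1 : MeasurableSet {c : ℝ | 0 ≤ c} := measurableSet_le measurable_const measurable_id
  have h2 : MeasurableSet {c : ℝ | 4 * (1 - c ^ 2) ≤ r ^ 2} :=
    measurableSet_le (by fun_prop) measurable_const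
  exact h1.inter h2

theorem lossL_meas : Measurable lossL := by
  unfold lossL
  fun_prop

theorem lossT_nonneg (r c : ℝ) : 0 ≤ lossT r c := by
  unfold lossT
  split_ifs
  · exact le_max_right _ _
  · exact le_rfl

theorem lossT_bd (r : ℝ) (hr : 0 ≤ r) (c : ℝ) (_ : |c| ≤ 1) : |lossT r c| ≤ 1 := by
  rw [abs_of_nonneg (lossT_nonneg r c)]
  unfold lossT
  split_ifs with h
  · have : 0 ≤ r * c / cos be := div_nonneg (mul_nonneg hr h.1) (by linarith [cos_be.1])
    exact max_le (by linarith) zero_le_one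
  · exact zero_le_one

theorem lossL_bd (c : ℝ) (hc : |c| ≤ 1) : |lossL c| ≤ 1 := by
  have h0 : 0 ≤ lossL c := le_max_right _ _
  rw [abs_of_nonneg h0]
  have h1 := cos_be.1
  have : c / cos be ≤ 2 := by
    rw [div_le_iff₀ (by linarith)]
    linarith [(abs_le.1 hc).2]
  exact max_le (by linarith) zero_le_one

theorem lossL_int : ∫ u in (0 : ℝ)..π, lossL (cos u) ≤ sin be / cos be - be := by
  have hs : 0 < cos be := by linarith [cos_be.1]
  have hb0 : 0 ≤ be := by linarith [be_gt]
  have hb1 : be ≤ π := by linarith [be_le, pi_pos]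
  have ii := cos_ii0 lossL lossL_meas 1 lossL_bd
  rw [← intervalIntegral.integral_add_adjacent_intervals (b := be) (ii _ _) (ii _ _)]
  have h1 : ∫ u in (0 : ℝ)..be, lossL (cos u) ≤ ∫ u in (0 : ℝ)..be, (cos u / cos be - 1) := by
    refine intervalIntegral.integral_mono_on hb0 (ii _ _)
      ((by fun_prop : Continuous fun u => cos u / cos be - 1).intervalIntegrable _ _)
      fun u hu => max_le le_rfl ?_
    have := cos_le_cos_of_nonneg_of_le_pi hu.1 hb1 hu.2
    rw [sub_nonneg, one_le_div hs]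
    exact this
  have h2 : ∫ u in be..π, lossL (cos u) ≤ ∫ _ in be..π, (0 : ℝ) := by
    refine intervalIntegral.integral_mono_on hb1 (ii _ _) (by simp) fun u hu => max_le ?_ le_rfl
    have := cos_le_cos_of_nonneg_of_le_pi hb0 hu.2 hu.1
    rw [sub_nonpos, div_le_one hs]
    exact this
  rw [intervalIntegral.integral_sub
    ((by fun_prop : Continuous fun u => cos u / cos be).intervalIntegrable _ _) (by simp),
    intervalIntegral.integral_div, integral_cos] at h1
  simp at h1 h2
  linarith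

theorem lossT_int (r : ℝ) (h1 : 1 ≤ r) (h2 : r ^ 2 ≤ 2) :
    ∫ u in (0 : ℝ)..π, lossT r (cos u) ≤ π / 6 - be - (1 / 2 - sin be) / cos be := by
  have hs : 0 < cos be := by linarith [cos_be.1]
  have hb0 := be_gt
  have hb1 := be_le
  have hpi := pi_pos
  have hpi2 := pi_lt_d2
  have hr2 : r ≤ √2 := Real.le_sqrt_of_sq_le h2
  have hs2 : √2 ≤ 2 := by rw [Real.sqrt_le_left (by norm_num)]; norm_num
  set A := arcsin (r / 2) with hAd
  have hsA : sin A = r / 2 := sin_arcsin (by linarith) (by linarith)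
  have hA1 : π / 6 ≤ A := by
    rw [hAd, le_arcsin_iff_sin_le' ⟨by linarith, by linarith⟩, sin_pi_div_six]
    linarith
  have hA2 : A ≤ π / 4 := by
    rw [hAd, arcsin_le_iff_le_sin' ⟨by linarith, by linarith⟩, sin_pi_div_four]
    linarith
  have ii := cos_ii0 (lossT r) (lossT_meas r) 1 (lossT_bd r (by linarith))
  have key : ∀ u, 0 ≤ u → u ≤ A → cos (π / 6 - A + u) ≤ r * cos u := by
    intro u hu1 hu2
    have e1 : r * cos u = sin (A + u) + sin (A - u) := by
      rw [sin_add, sin_sub, hsA]; ring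
    have e2 : cos (π / 6 - A + u) = sin (π / 6 + (π / 6 - A + u)) + sin (A - u) := by
      have : A - u = π / 6 - (π / 6 - A + u) := by ring
      rw [this, sin_add, sin_sub, sin_pi_div_six]
      ring
    have := sin_le_sin_of_le_of_le_pi_div_two (x := π / 6 + (π / 6 - A + u)) (y := A + u)
      (by linarith) (by linarith) (by linarith)
    linarith
  rw [← intervalIntegral.integral_add_adjacent_intervals (b := A) (ii _ _) (ii _ _),
    ← intervalIntegral.integral_add_adjacent_intervals (b := A - π / 6 + be) (ii _ _) (ii _ _)]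
  have i1 : ∫ u in (0 : ℝ)..A - π / 6 + be, lossT r (cos u) ≤
      ∫ _ in (0 : ℝ)..A - π / 6 + be, (0 : ℝ) := by
    refine intervalIntegral.integral_mono_on (by linarith) (ii _ _) (by simp) fun u hu => ?_
    unfold lossT
    split_ifs
    · refine max_le ?_ le_rfl
      have k1 := key u hu.1 (by linarith [hu.2])
      have k2 : cos be ≤ cos (π / 6 - A + u) := by
        rw [← cos_abs (π / 6 - A + u)]
        refine cos_le_cos_of_nonneg_of_le_pi (abs_nonneg _) (by linarith) ?_
        rw [abs_le]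
        constructor <;> linarith [hu.1, hu.2]
      rw [sub_nonpos, one_le_div hs]
      linarith
    · exact le_rfl
  have i2 : ∫ u in (A - π / 6 + be)..A, lossT r (cos u) ≤
      ∫ u in (A - π / 6 + be)..A, (1 - cos (π / 6 - A + u) / cos be) := by
    refine intervalIntegral.integral_mono_on (by linarith) (ii _ _)
      ((by fun_prop : Continuous fun u => 1 - cos (π / 6 - A + u) / cos be).intervalIntegrable _ _)
      fun u hu => ?_
    have k1 := key u (by linarith [hu.1]) hu.2
    have k2 : cos (π / 6 - A + u) ≤ cos be :=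
      cos_le_cos_of_nonneg_of_le_pi (by linarith) (by linarith [hu.2]) (by linarith [hu.1])
    have k3 : 0 ≤ 1 - cos (π / 6 - A + u) / cos be := by
      rw [sub_nonneg, div_le_one hs]
      exact k2
    unfold lossT
    split_ifs
    · refine max_le ?_ k3
      have := div_le_div_of_nonneg_right k1 hs.le
      linarith
    · exact k3
  have i3 : ∫ u in A..π, lossT r (cos u) ≤ ∫ _ in A..π, (0 : ℝ) := by
    refine intervalIntegral.integral_mono_on_of_le_Ioo (by linarith) (ii _ _) (by simp)
      fun u hu => ?_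
    unfold lossT
    rw [if_neg]
    rintro ⟨k1, k2⟩
    have k3 : u ≤ π / 2 := by
      by_contra hc
      have := cos_neg_of_pi_div_two_lt_of_lt (not_le.1 hc) (by linarith [hu.2])
      linarith
    have k4 := sin_lt_sin_of_lt_of_le_pi_div_two (by linarith) k3 hu.1
    have k5 := sin_sq_add_cos_sq u
    rw [hsA] at k4
    nlinarith
  rw [intervalIntegral.integral_sub (by simp)
    ((by fun_prop : Continuous fun u => cos (π / 6 - A + u) / cos be).intervalIntegrable _ _),
    intervalIntegral.integral_div,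
    intervalIntegral.integral_comp_add_left (fun u => cos u) (π / 6 - A), integral_cos] at i2
  have e1 : π / 6 - A + A = π / 6 := by ring
  have e2 : π / 6 - A + (A - π / 6 + be) = be := by ring
  rw [e1, e2, sin_pi_div_six] at i2
  simp at i1 i2 i3
  linarith

/-- Total loss constant. -/
noncomputable def KK : ℝ := π / 6 - (1 + ga ^ 2) * be

theorem KK_eq : π / 6 - be - (1 / 2 - sin be) / cos be + ga ^ 2 * (sin be / cos be - be) = KK := by
  have hs : cos be ≠ 0 := by linarith [cos_be.1]
  have h := sin_be'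
  unfold KK
  rw [← h]
  field_simp
  ring

theorem KK_half : π / 6 - be - (1 / 2 - sin be) / cos be ≤ ga ^ 2 * (sin be / cos be - be) := by
  obtain ⟨h1, h2⟩ := sqrt5_bounds
  obtain ⟨h3, h4⟩ := cos_be
  have hs : 0 < cos be := by linarith
  have hb := be_gt
  have hpi := pi_lt_d4
  have h5 : √5 ^ 2 = 5 := Real.sq_sqrt (by norm_num)
  have k1 : 0.2964 ≤ (1 / 2 - (1 - ga ^ 2) * sin be) / cos be := by
    rw [le_div_iff₀ hs, ga_sq_eq, sin_be]
    nlinarith
  have k2 : 0.618 * be ≤ (1 - ga ^ 2) * be :=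
    mul_le_mul_of_nonneg_right (by rw [ga_sq_eq]; linarith) (by linarith)
  have e : (1 / 2 - (1 - ga ^ 2) * sin be) / cos be =
      (1 / 2 - sin be) / cos be + ga ^ 2 * (sin be / cos be) := by
    field_simp
    ring
  nlinarith

theorem KK_nonneg : 0 ≤ KK := by
  have h1 := lossT_int 1 le_rfl (by norm_num)
  have h2 : 0 ≤ ∫ u in (0 : ℝ)..π, lossT 1 (cos u) :=
    intervalIntegral.integral_nonneg pi_pos.le fun u _ => lossT_nonneg _ _
  have h3 := KK_half
  rw [← KK_eq]
  linarith

/-- Indicator of an arc. -/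
noncomputable def arcI (h c : ℝ) : ℝ := if cos h < c then 1 else 0

theorem arcI_meas (h : ℝ) : Measurable (arcI h) :=
  Measurable.ite (measurableSet_lt measurable_const measurable_id) measurable_const
    measurable_const

theorem arcI_bd (h c : ℝ) (_ : |c| ≤ 1) : |arcI h c| ≤ 1 := by
  unfold arcI
  split_ifs <;> simp

theorem arcI_int (h : ℝ) (h0 : 0 ≤ h) (h1 : h ≤ π) : h ≤ ∫ u in (0 : ℝ)..π, arcI h (cos u) := by
  have ii := cos_ii0 (arcI h) (arcI_meas h) 1 (arcI_bd h)
  rw [← intervalIntegral.integral_add_adjacent_intervals (b := h) (ii _ _) (ii _ _)]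
  have i1 : ∫ _ in (0 : ℝ)..h, (1 : ℝ) ≤ ∫ u in (0 : ℝ)..h, arcI h (cos u) := by
    refine intervalIntegral.integral_mono_on_of_le_Ioo h0 (by simp) (ii _ _) fun u hu => ?_
    unfold arcI
    rw [if_pos (cos_lt_cos_of_nonneg_of_le_pi hu.1.le h1 hu.2)]
  have i2 : 0 ≤ ∫ u in h..π, arcI h (cos u) := by
    refine intervalIntegral.integral_nonneg h1 fun u _ => ?_
    unfold arcI
    split_ifs <;> norm_num
  simp at i1
  linarith

end Pool.Agent.Lib.MP_17b37b_co
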