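import Pool.Agent.Lib.MP_17b37b_co.TAvgT
import Pool.Agent.Lib.MP_17b37b_co.TInt

/-!
Averaging over the direction.
-/

namespace Pool.Agent.Lib.MP_17b37b_co

open Real MeasureTheory Finset

theorem polar (a b : ℝ) : ∃ r ψ : ℝ, 0 ≤ r ∧ a = r * cos ψ ∧ b = r * sin ψ :=
  ⟨‖(⟨a, b⟩ : ℂ)‖, Complex.arg ⟨a, b⟩, norm_nonneg _,
    (Complex.norm_mul_cos_arg ⟨a, b⟩).symm, (Complex.norm_mul_sin_arg ⟨a, b⟩).symm⟩

theorem arc_cos (h k a b : ℝ) (h0 : 0 ≤ h) (h1 : h ≤ π / 2) (k0 : 0 ≤ k) (k1 : k ≤ π / 2)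
    (ha : cos h < cos a) (hb : cos k < cos b) : cos (h + k) < cos (a - b) := by
  have hpi := pi_pos
  have c1 : 0 ≤ cos h := cos_nonneg_of_neg_pi_div_two_le_of_le (by linarith) h1
  have c2 : 0 ≤ cos k := cos_nonneg_of_neg_pi_div_two_le_of_le (by linarith) k1
  have s1 : 0 ≤ sin h := sin_nonneg_of_nonneg_of_le_pi h0 (by linarith)
  have s2 : 0 ≤ sin k := sin_nonneg_of_nonneg_of_le_pi k0 (by linarith)
  have t1 : |sin a| ≤ sin h := abs_le_of_sq_le_sq (by
    nlinarith [sin_sq_add_cos_sq a, sin_sq_add_cos_sq h]) s1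
  have t2 : |sin b| ≤ sin k := abs_le_of_sq_le_sq (by
    nlinarith [sin_sq_add_cos_sq b, sin_sq_add_cos_sq k]) s2
  have t3 : |sin a * sin b| ≤ sin h * sin k := by
    rw [abs_mul]
    exact mul_le_mul t1 t2 (abs_nonneg _) s1
  have t4 : cos h * cos k < cos a * cos b := mul_lt_mul'' ha hb c1 c2
  rw [cos_add, cos_sub]
  linarith [(abs_le.1 t3).1]

/-- Half width of the arc blocked by a point at distance `r`. -/
noncomputable def hw (r : ℝ) : ℝ := if r = 1 then π / 6 else if r ^ 2 < 2 then π / 12 else 0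

theorem hw_bounds (r : ℝ) : 0 ≤ hw r ∧ hw r ≤ π / 2 := by
  have hpi := pi_pos
  unfold hw
  split_ifs <;> constructor <;> linarith

theorem arcs_disjoint (r r' a b : ℝ) (h1 : 1 ≤ r) (h2 : 1 ≤ r')
    (h : 1 ≤ r ^ 2 + r' ^ 2 - 2 * r * r' * cos (a - b)) (ha : cos (hw r) < cos a)
    (hb : cos (hw r') < cos b) : False := by
  have k := arc_cos _ _ a b (hw_bounds r).1 (hw_bounds r).2 (hw_bounds r').1 (hw_bounds r').2 ha hb
  have ca := cos_le_one a
  have cb := cos_le_one b
  have q2 : √2 ^ 2 = 2 := Real.sq_sqrt (by norm_num)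
  have q2' : 0 ≤ √2 := Real.sqrt_nonneg _
  have q3 : 1.7 < √3 := by rw [Real.lt_sqrt (by norm_num)]; norm_num
  have lt2 : ∀ z : ℝ, z ^ 2 < 2 → z < √2 := fun z hz => Real.lt_sqrt_of_sq_lt hz
  unfold hw at k ha hb
  by_cases e1 : r = 1
  · by_cases e2 : r' = 1
    · simp only [e1, e2, if_true] at k h
      rw [show π / 6 + π / 6 = π / 3 by ring, cos_pi_div_three] at k
      linarith
    · by_cases f2 : r' ^ 2 < 2
      · simp only [e1, e2, f2, if_true, if_false] at k h
        rw [show π / 6 + π / 12 = π / 4 by ring, cos_pi_div_four] at k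
        have := lt2 r' f2
        nlinarith
      · simp only [e2, f2, if_false, cos_zero] at hb
        linarith
  · by_cases f1 : r ^ 2 < 2
    · by_cases e2 : r' = 1
      · simp only [e1, e2, f1, if_true, if_false] at k h
        rw [show π / 12 + π / 6 = π / 4 by ring, cos_pi_div_four] at k
        have := lt2 r f1
        nlinarith
      · by_cases f2 : r' ^ 2 < 2
        · simp only [e1, e2, f1, f2, if_true, if_false] at k
          rw [show π / 12 + π / 12 = π / 6 by ring, cos_pi_div_six] at k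
          have u1 : r < 1.5 := by nlinarith
          have u2 : r' < 1.5 := by nlinarith
          have u3 : 0 < r * r' := by positivity
          have u4 : 1.7 * (r * r') < 2 * r * r' * cos (a - b) := by nlinarith
          nlinarith [mul_nonneg (sub_nonneg.2 h1) (sub_nonneg.2 h2),
            mul_nonneg (sub_nonneg.2 h1) (sub_nonneg.2 u1.le),
            mul_nonneg (sub_nonneg.2 h2) (sub_nonneg.2 u2.le),
            mul_nonneg (sub_nonneg.2 u1.le) (sub_nonneg.2 u2.le)]
        · simp only [e2, f2, if_false, cos_zero] at hb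
          linarith
    · simp only [e1, f1, if_false, cos_zero] at ha
      linarith

/-- Loss caused by a point at distance `r`. -/
noncomputable def loss (r c : ℝ) : ℝ :=
  ga ^ 2 * (if r ^ 2 < 2 then lossT r c else 0) + ga ^ 4 * (if r = 1 then lossL c else 0)

theorem loss_meas (r : ℝ) : Measurable (loss r) := by
  unfold loss
  have h1 := lossT_meas r
  have h2 := lossL_meas
  split_ifs <;> fun_prop

theorem loss_bd (r : ℝ) (hr : 0 ≤ r) (c : ℝ) (hc : |c| ≤ 1) : |loss r c| ≤ ga ^ 2 + ga ^ 4 := by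
  have g2 : 0 < ga ^ 2 := pow_pos ga_pos 2
  have g4 : 0 < ga ^ 4 := pow_pos ga_pos 4
  have h1 : |if r ^ 2 < 2 then lossT r c else 0| ≤ 1 := by
    split_ifs
    · exact lossT_bd r hr c hc
    · simp
  have h2 : |if r = 1 then lossL c else 0| ≤ 1 := by
    split_ifs
    · exact lossL_bd c hc
    · simp
  unfold loss
  refine (abs_add_le _ _).trans ?_
  rw [abs_mul, abs_mul, abs_of_pos g2, abs_of_pos g4]
  nlinarith

theorem loss_int (r : ℝ) (hr : 1 ≤ r) :
    ∫ u in (0 : ℝ)..π, loss r (cos u) ≤ ga ^ 2 * KK * (6 / π) * hw r := by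
  have g2 : 0 < ga ^ 2 := pow_pos ga_pos 2
  have hpi := pi_pos
  have i1 := cos_ii0 (lossT r) (lossT_meas r) 1 (lossT_bd r (by linarith)) 0 π
  have i2 := cos_ii0 lossL lossL_meas 1 lossL_bd 0 π
  have k1 := KK_eq
  have k2 := KK_half
  unfold loss hw
  by_cases e : r = 1
  · have f : r ^ 2 < 2 := by rw [e]; norm_num
    simp only [if_pos e, if_pos f]
    rw [intervalIntegral.integral_add (i1.const_mul _) (i2.const_mul _),
      intervalIntegral.integral_const_mul, intervalIntegral.integral_const_mul]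
    have j1 := mul_le_mul_of_nonneg_left (lossT_int r hr f.le) g2.le
    have j2 := mul_le_mul_of_nonneg_left lossL_int (pow_pos ga_pos 4).le
    have e3 : ga ^ 2 * KK * (6 / π) * (π / 6) = ga ^ 2 * KK := by field_simp
    rw [e3, ← k1]
    nlinarith
  · by_cases f : r ^ 2 < 2
    · simp only [if_neg e, if_pos f, mul_zero, add_zero]
      rw [intervalIntegral.integral_const_mul]
      have j1 := lossT_int r hr f.le
      have e3 : ga ^ 2 * KK * (6 / π) * (π / 12) = ga ^ 2 * (KK / 2) := by field_simp; ring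
      rw [e3]
      exact mul_le_mul_of_nonneg_left (by linarith) g2.le
    · simp [if_neg e, if_neg f]

open Classical in
theorem pair_loss {V : Type*} (x y : V → ℝ) (u v : V) (r c : ℝ) (hr : 1 ≤ r)
    (h1 : y v - y u = r * c) (h2 : d2 x y u v = r ^ 2) :
    ga ^ 2 * (if Del x y u v then max (1 - (y v - y u) / cos be) 0 else 0) +
      ga ^ 4 * (if d2 x y u v = 1 then max ((y v - y u) / cos be - 1) 0 else 0) ≤ loss r c := by
  have g2 : 0 < ga ^ 2 := pow_pos ga_pos 2
  have g4 : 0 < ga ^ 4 := pow_pos ga_pos 4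
  obtain ⟨s1, s2⟩ := cos_be
  unfold loss
  refine add_le_add (mul_le_mul_of_nonneg_left ?_ g2.le) (mul_le_mul_of_nonneg_left ?_ g4.le)
  · by_cases hd : Del x y u v
    · rw [if_pos hd]
      obtain ⟨-, d1, d3, d4⟩ := hd
      have hx : (x u - x v) ^ 2 = r ^ 2 * (1 - c ^ 2) := by
        unfold d2 at h2
        have : y u - y v = -(r * c) := by linarith
        rw [this] at h2
        linarith
      have hrc : 0 ≤ r * c := by linarith
      have hc : 0 ≤ c := nonneg_of_mul_nonneg_right hrc (by linarith)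
      rw [h2, hx] at d4
      rw [hx] at d3
      rw [h1]
      split_ifs with f
      · have : 4 * (1 - c ^ 2) ≤ r ^ 2 := by
          have hr2 : 0 < r ^ 2 := by positivity
          refine le_of_mul_le_mul_left ?_ hr2
          linarith
        unfold lossT
        rw [if_pos ⟨hc, this⟩]
      · refine max_le ?_ le_rfl
        have t1 : 1 ^ 2 ≤ (r * c) ^ 2 := by nlinarith
        have t2 := (abs_le_of_sq_le_sq' t1 hrc).2
        rw [sub_nonpos, one_le_div (by linarith)]
        linarith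
    · rw [if_neg hd]
      split_ifs
      · exact lossT_nonneg r c
      · exact le_rfl
  · by_cases ha : d2 x y u v = 1
    · have e : r = 1 := by nlinarith
      rw [if_pos ha, if_pos e, h1, e, one_mul]
      exact le_rfl
    · rw [if_neg ha]
      split_ifs
      · exact le_max_right _ _
      · exact le_rfl

theorem main_bound {V : Type*} (px py : V → ℝ) (X : Finset V)
    (hsep : ∀ u ∈ X, ∀ v ∈ X, u ≠ v → 1 ≤ d2 px py u v)
    (w : V → ℝ) (hw0 : ∀ v ∈ X, 0 ≤ w v) (A : ℝ)
    (hA : ∀ I ⊆ X, (∀ u ∈ I, ∀ v ∈ I, d2 px py u v ≠ 1) → ∑ v ∈ I, w v ≤ A) :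
    6 / π * ga ^ 2 * be * ∑ v ∈ X, w v ≤ A := by
  classical
  have hpi := pi_pos
  have g2 : 0 < ga ^ 2 := pow_pos ga_pos 2
  choose r ψ hr0 hr1 hr2 using fun u v : V => polar (px v - px u) (py v - py u)
  have hrd : ∀ u v, d2 px py u v = r u v ^ 2 := by
    intro u v
    have : d2 px py u v = (px v - px u) ^ 2 + (py v - py u) ^ 2 := by unfold d2; ring
    rw [this, hr1, hr2]
    linear_combination (r u v) ^ 2 * sin_sq_add_cos_sq (ψ u v)
  have hr : ∀ u ∈ X, ∀ v ∈ X, u ≠ v → 1 ≤ r u v := by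
    intro u hu v hv h
    have := hsep u hu v hv h
    rw [hrd] at this
    exact (abs_le_of_sq_le_sq' (by linarith) (hr0 u v)).2
  -- the bound for a fixed direction
  have hθ : ∀ θ, ∑ v ∈ X, w v * (ga ^ 2 - ∑ u ∈ X.erase v, loss (r u v) (cos (θ - ψ u v))) ≤
      (1 + ga ^ 2) * A := by
    intro θ
    set x : V → ℝ := fun v => py v * cos θ - px v * sin θ with hx
    set y : V → ℝ := fun v => px v * cos θ + py v * sin θ with hy
    have hd : ∀ u v, d2 x y u v = d2 px py u v := by
      intro u v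
      simp only [d2, hx, hy]
      linear_combination ((px u - px v) ^ 2 + (py u - py v) ^ 2) * sin_sq_add_cos_sq θ
    have h1 := offset_bound x y X (fun u hu v hv h => hd u v ▸ hsep u hu v hv h) (cos be)
      (by linarith [cos_be.1]) (cos_le_one _) w hw0 A
      (fun I hI h => hA I hI fun u hu v hv => hd u v ▸ h u hu v hv)
    refine le_trans (sum_le_sum fun v hv => mul_le_mul_of_nonneg_left ?_ (hw0 v hv)) h1
    refine sub_le_sub_left ?_ _
    rw [← add_sum_erase X _ hv]
    have z1 : ¬ Del x y v v := fun h => h.1 rfl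
    have z2 : d2 x y v v ≠ 1 := by simp [d2]
    rw [if_neg z1, if_neg z2, mul_zero, mul_zero, add_zero, zero_add]
    refine sum_le_sum fun u hu => ?_
    rw [mem_erase] at hu
    refine pair_loss x y u v _ _ (hr u hu.2 v hv hu.1) ?_ (by rw [hd, hrd])
    simp only [hy]
    rw [cos_sub]
    linear_combination cos θ * hr1 u v + sin θ * hr2 u v
  have ii : ∀ u v, IntervalIntegrable (fun θ => loss (r u v) (cos (θ - ψ u v))) volume 0 (2 * π) :=
    fun u v => cos_ii _ (loss_meas _) _ (loss_bd _ (hr0 u v)) _ _ _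
  have jj : ∀ u v, IntervalIntegrable (fun θ => arcI (hw (r u v)) (cos (θ - ψ u v))) volume 0
      (2 * π) := fun u v => cos_ii _ (arcI_meas _) _ (arcI_bd _) _ _ _
  have sumii : ∀ (T : Finset V) (f : V → ℝ → ℝ),
      (∀ i ∈ T, IntervalIntegrable (f i) volume 0 (2 * π)) →
      IntervalIntegrable (fun θ => ∑ i ∈ T, f i θ) volume 0 (2 * π) := by
    intro T f hf
    have := IntervalIntegrable.sum T hf
    rwa [Finset.sum_fn] at this
  -- arcs
  have harc : ∀ v ∈ X, ∑ u ∈ X.erase v, hw (r u v) ≤ π := by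
    intro v hv
    have h1 : ∀ θ, ∑ u ∈ X.erase v, arcI (hw (r u v)) (cos (θ - ψ u v)) ≤ 1 := by
      intro θ
      unfold arcI
      rw [sum_boole, Nat.cast_le_one, card_le_one]
      intro a ha b hb
      rw [mem_filter, mem_erase] at ha hb
      by_contra hne
      refine arcs_disjoint (r a v) (r b v) _ _ (hr a ha.1.2 v hv ha.1.1)
        (hr b hb.1.2 v hv hb.1.1) ?_ ha.2 hb.2
      have h2 := hsep a ha.1.2 b hb.1.2 hne
      have e1 : px a - px b = r b v * cos (ψ b v) - r a v * cos (ψ a v) := by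
        linarith [hr1 a v, hr1 b v]
      have e2 : py a - py b = r b v * sin (ψ b v) - r a v * sin (ψ a v) := by
        linarith [hr2 a v, hr2 b v]
      have e3 : θ - ψ a v - (θ - ψ b v) = ψ b v - ψ a v := by ring
      unfold d2 at h2
      rw [e1, e2] at h2
      rw [e3, cos_sub]
      refine h2.trans (le_of_eq ?_)
      linear_combination (r a v) ^ 2 * sin_sq_add_cos_sq (ψ a v) +
        (r b v) ^ 2 * sin_sq_add_cos_sq (ψ b v)
    have h2 := intervalIntegral.integral_mono_on (μ := volume) (a := 0) (b := 2 * π)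
      (by linarith) (sumii _ _ fun u _ => jj u v) (g := fun _ => 1) (by simp) (fun θ _ => h1 θ)
    rw [intervalIntegral.integral_finsetSum fun u _ => jj u v] at h2
    have h3 : ∑ u ∈ X.erase v, 2 * hw (r u v) ≤ ∑ u ∈ X.erase v,
        ∫ θ in (0 : ℝ)..2 * π, arcI (hw (r u v)) (cos (θ - ψ u v)) := by
      refine sum_le_sum fun u _ => ?_
      rw [cos_int _ (arcI_meas _) _ (arcI_bd _)]
      have := arcI_int (hw (r u v)) (hw_bounds _).1 (by linarith [(hw_bounds (r u v)).2])
      linarith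
    rw [← mul_sum] at h3
    simp at h2
    linarith
  have hloss : ∀ v ∈ X, ∑ u ∈ X.erase v,
      ∫ θ in (0 : ℝ)..2 * π, loss (r u v) (cos (θ - ψ u v)) ≤ 12 * (ga ^ 2 * KK) := by
    intro v hv
    have h1 : ∑ u ∈ X.erase v, ∫ θ in (0 : ℝ)..2 * π, loss (r u v) (cos (θ - ψ u v)) ≤
        ∑ u ∈ X.erase v, 2 * (ga ^ 2 * KK * (6 / π)) * hw (r u v) := by
      refine sum_le_sum fun u hu => ?_
      rw [mem_erase] at hu
      rw [cos_int _ (loss_meas _) _ (loss_bd _ (hr0 u v))]
      have := loss_int (r u v) (hr u hu.2 v hv hu.1)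
      linarith
    rw [← mul_sum] at h1
    have h2 : 0 ≤ 2 * (ga ^ 2 * KK * (6 / π)) := by
      have := KK_nonneg
      positivity
    have h3 := mul_le_mul_of_nonneg_left (harc v hv) h2
    have e : 2 * (ga ^ 2 * KK * (6 / π)) * π = 12 * (ga ^ 2 * KK) := by field_simp; ring
    linarith
  have kk : ∀ v, IntervalIntegrable
      (fun θ => w v * (ga ^ 2 - ∑ u ∈ X.erase v, loss (r u v) (cos (θ - ψ u v)))) volume 0
      (2 * π) := fun v =>
    ((intervalIntegrable_const (c := ga ^ 2)).sub (sumii _ _ fun u _ => ii u v)).const_mul _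
  have h2 := intervalIntegral.integral_mono_on (μ := volume) (a := 0) (b := 2 * π)
    (by linarith) (sumii _ _ fun v _ => kk v) (g := fun _ => (1 + ga ^ 2) * A) (by simp)
    (fun θ _ => hθ θ)
  rw [intervalIntegral.integral_finsetSum fun v _ => kk v] at h2
  have h3 : ∑ v ∈ X, (2 * π * ga ^ 2 - 12 * (ga ^ 2 * KK)) * w v ≤ ∑ v ∈ X,
      ∫ θ in (0 : ℝ)..2 * π,
        w v * (ga ^ 2 - ∑ u ∈ X.erase v, loss (r u v) (cos (θ - ψ u v))) := by
    refine sum_le_sum fun v hv => ?_
    rw [intervalIntegral.integral_const_mul, intervalIntegral.integral_sub (by simp)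
      (sumii _ _ fun u _ => ii u v), intervalIntegral.integral_finsetSum fun u _ => ii u v,
      mul_comm]
    refine mul_le_mul_of_nonneg_left ?_ (hw0 v hv)
    have := hloss v hv
    simp
    linarith
  rw [← mul_sum] at h3
  have h4 := h3.trans h2
  rw [intervalIntegral.integral_const, sub_zero, smul_eq_mul] at h4
  have e : (2 * π * ga ^ 2 - 12 * (ga ^ 2 * KK)) =
      2 * π * (1 + ga ^ 2) * (6 / π * ga ^ 2 * be) := by
    unfold KK
    field_simp
    ring
  rw [e] at h4
  have h5 : 0 < 2 * π * (1 + ga ^ 2) := by positivity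
  refine le_of_mul_le_mul_left ?_ h5
  linarith

end Pool.Agent.Lib.MP_17b37b_co
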