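import Pool.Agent.Lib.MP_17b37b_co.TChain

/-!
The toggle process: vertices are processed in time order, each toggles its column.
-/

namespace Pool.Agent.Lib.MP_17b37b_co

open Finset

theorem toggle_process {V : Type*} [DecidableEq V] (n : ℕ) (col : V → ℕ) (adj : V → V → Prop)
    (hsymm : ∀ u v, adj u v → adj v u) (τ : V → ℕ) (S : Finset V) :
    (∀ v ∈ S, 1 ≤ col v ∧ col v < n) →
    (∀ u ∈ S, ∀ v ∈ S, col u = col v → τ u = τ v → u = v) →
    (∀ u ∈ S, ∀ v ∈ S, ∀ w ∈ S, adj u v → col w = col u → w ≠ v → τ u < τ w → τ v < τ w) →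
    ∃ (F : Finset ℕ → Finset ℕ) (I : Finset ℕ → Finset V),
      (∀ G, EE n (fun s => G (F s)) = EE n G) ∧
      (∀ s, Ind s → Ind (F s)) ∧
      (∀ s, I s ⊆ S) ∧
      (∀ s, ∀ u ∈ I s, (∀ w ∈ S, col w = col u → τ w ≤ τ u) → col u ∈ F s) ∧
      (∀ v ∈ S, EE n (fun s => if v ∈ I s then 1 else 0) = (1 + ga) ^ n * ga ^ 2) ∧
      (∀ s, Ind s → ∀ u ∈ I s, ∀ v ∈ I s, u ≠ v → adj u v →
        ¬ (col u = col v ∨ col u + 1 = col v ∨ col u = col v + 1)) ∧
      (∀ u ∈ S, ∀ v ∈ S, adj u v → col u + 2 = col v →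
        EE n (fun s => if u ∈ I s ∧ v ∈ I s then 1 else 0) ≤ (1 + ga) ^ n * ga ^ 4) := by
  induction S using Finset.induction_on_max_value τ with
  | empty =>
    intro _ _ _
    exact ⟨id, fun _ => ∅, fun _ => rfl, fun _ h => h, by simp, by simp, by simp, by simp, by simp⟩
  | insert a S ha hmax ih =>
    intro hcol hinj H
    obtain ⟨F, I, h1, h2, h3, h4, h5, h6, h7⟩ := ih
      (fun v hv => hcol v (mem_insert_of_mem hv))
      (fun u hu v hv => hinj u (mem_insert_of_mem hu) v (mem_insert_of_mem hv))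
      (fun u hu v hv w hw => H u (mem_insert_of_mem hu) v (mem_insert_of_mem hv) w
        (mem_insert_of_mem hw))
    obtain ⟨hc1, hc2⟩ := hcol a (mem_insert_self _ _)
    have haI : ∀ s, a ∉ I s := fun s h => ha (h3 s h)
    set I' : Finset ℕ → Finset V :=
      fun s => if col a ∈ tog (col a) (F s) then insert a (I s) else I s with hI'
    have m1 : ∀ s, a ∈ I' s ↔ col a ∈ tog (col a) (F s) := by
      intro s
      simp only [hI']
      split_ifs with h
      · simp [h]
      · simp [h, haI s]
    have m2 : ∀ s v, v ≠ a → (v ∈ I' s ↔ v ∈ I s) := by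
      intro s v hv
      simp only [hI']
      split_ifs with h
      · simp [hv]
      · rfl
    have hne : ∀ v ∈ S, v ≠ a := fun v hv e => ha (e ▸ hv)
    have hE : ∀ G, EE n (fun s => G (tog (col a) (F s))) = EE n G := by
      intro G
      rw [h1 (fun s => G (tog (col a) s)), EE_tog n _ hc1 hc2]
    -- a neighbour of the new vertex is the last of its column
    have hlast : ∀ u ∈ S, adj u a → ∀ w ∈ S, col w = col u → τ w ≤ τ u := by
      intro u hu hua w hw hc
      by_contra hlt
      have := H u (mem_insert_of_mem hu) a (mem_insert_self _ _) w (mem_insert_of_mem hw) hua hc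
        (hne w hw) (by omega)
      have := hmax w hw
      omega
    have key : ∀ s, Ind s → ∀ u ∈ I s, adj u a →
        (col u = col a ∨ col u + 1 = col a ∨ col u = col a + 1) → a ∉ I' s := by
      intro s hs u hu hua hc
      rw [m1]
      exact not_mem_tog (h2 s hs) (h4 s u hu (hlast u (h3 s hu) hua)) hc hc1
    have key2 : ∀ s, ∀ u ∈ S, adj u a → col u ≠ col a → u ∈ I' s →
        col u ∈ tog (col a) (F s) := by
      intro s u hu hua hc hI
      rw [m2 s u (hne u hu)] at hI
      rw [mem_tog_of_ne _ hc]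
      exact h4 s u hI (hlast u hu hua)
    refine ⟨fun s => tog (col a) (F s), I', hE, fun s hs => ind_tog hc1 (h2 s hs), ?_, ?_, ?_,
      ?_, ?_⟩
    · intro s v hv
      by_cases e : v = a
      · exact e ▸ mem_insert_self _ _
      · exact mem_insert_of_mem (h3 s ((m2 s v e).1 hv))
    · intro s u hu hw
      by_cases e : u = a
      · subst e
        exact (m1 s).1 hu
      · have hu' := (m2 s u e).1 hu
        have huS := h3 s hu'
        have hc : col u ≠ col a := by
          intro hc
          have t1 := hw a (mem_insert_self _ _) hc.symm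
          have t2 := hmax u huS
          exact e (hinj u (mem_insert_of_mem huS) a (mem_insert_self _ _) hc (by omega))
        rw [mem_tog_of_ne _ hc]
        exact h4 s u hu' fun w hw' => hw w (mem_insert_of_mem hw')
    · intro v hv
      by_cases e : v = a
      · subst e
        simp only [m1]
        rw [hE (fun s => if col v ∈ s then 1 else 0), EE_mem n _ hc2.le]
      · simp only [m2 _ v e]
        exact h5 v ((mem_insert.1 hv).resolve_left e)
    · intro s hs u hu v hv huv hadj hc
      by_cases e1 : u = a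
      · subst e1
        exact key s hs v ((m2 s v huv.symm).1 hv) (hsymm _ _ hadj) (by omega) hu
      · by_cases e2 : v = a
        · subst e2
          exact key s hs u ((m2 s u e1).1 hu) hadj hc hv
        · exact h6 s hs u ((m2 s u e1).1 hu) v ((m2 s v e2).1 hv) huv hadj hc
    · intro u hu v hv hadj hc
      by_cases e1 : u = a
      · subst e1
        have e2 : v ≠ u := fun e => by rw [e] at hc; omega
        have hvS := (mem_insert.1 hv).resolve_left e2
        rw [← EE_mem2 n (col u) (by have := (hcol v hv).2; omega),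
          ← hE (fun s => if col u ∈ s ∧ col u + 2 ∈ s then 1 else 0)]
        refine EE_mono _ _ _ fun s _ => ?_
        by_cases h : u ∈ I' s ∧ v ∈ I' s
        · have t1 := (m1 s).1 h.1
          have t2 := key2 s v hvS (hsymm _ _ hadj) (by omega) h.2
          rw [← hc] at t2
          simp [h, t1, t2]
        · simp only [h, if_false]
          split_ifs <;> norm_num
      · have huS := (mem_insert.1 hu).resolve_left e1
        by_cases e2 : v = a
        · subst e2
          rw [← EE_mem2 n (col u) (by omega),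
            ← hE (fun s => if col u ∈ s ∧ col u + 2 ∈ s then 1 else 0)]
          refine EE_mono _ _ _ fun s _ => ?_
          by_cases h : u ∈ I' s ∧ v ∈ I' s
          · have t1 := (m1 s).1 h.2
            have t2 := key2 s u huS hadj (by omega) h.1
            have t3 : col u + 2 ∈ tog (col v) (F s) := by rw [hc]; exact t1
            simp [h, t2, t3]
          · simp only [h, if_false]
            split_ifs <;> norm_num
        · simp only [m2 _ u e1, m2 _ v e2]
          exact h7 u huS v ((mem_insert.1 hv).resolve_left e2) hadj hc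

open Classical in
theorem toggle_bound {V : Type*} (n : ℕ) (col : V → ℕ) (adj : V → V → Prop)
    (hsymm : ∀ u v, adj u v → adj v u) (hirr : ∀ u, ¬ adj u u) (τ : V → ℕ) (S : Finset V)
    (hcol : ∀ v ∈ S, 1 ≤ col v ∧ col v < n)
    (hinj : ∀ u ∈ S, ∀ v ∈ S, col u = col v → τ u = τ v → u = v)
    (H : ∀ u ∈ S, ∀ v ∈ S, ∀ w ∈ S, adj u v → col w = col u → w ≠ v → τ u < τ w → τ v < τ w)
    (hspan : ∀ u ∈ S, ∀ v ∈ S, adj u v → col v ≤ col u + 2)
    (w : V → ℝ) (hw : ∀ v ∈ S, 0 ≤ w v) (A : ℝ)
    (hA : ∀ I ⊆ S, (∀ u ∈ I, ∀ v ∈ I, ¬ adj u v) → ∑ v ∈ I, w v ≤ A) :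
    ∑ v ∈ S, w v * (ga ^ 2 - ga ^ 4 *
      ∑ u ∈ S, if adj u v ∧ col u + 2 = col v then 1 else 0) ≤ (1 + ga ^ 2) * A := by
  obtain ⟨F, I, -, -, h3, -, h5, h6, h7⟩ := toggle_process n col adj hsymm τ S hcol hinj H
  have hZ : 0 < (1 + ga) ^ n := pow_pos (by linarith [ga_pos]) n
  have hs : ∀ s, Ind s → ∑ v ∈ S, w v * ((if v ∈ I s then 1 else 0) -
      ∑ u ∈ S, (if adj u v ∧ col u + 2 = col v then 1 else 0) *
        (if u ∈ I s ∧ v ∈ I s then 1 else 0)) ≤ A * 1 := by
    intro s hs
    set J := (I s).filter (fun v => ¬ ∃ u ∈ I s, adj u v ∧ col u + 2 = col v) with hJ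
    have hJS : J ⊆ S := (filter_subset _ _).trans (h3 s)
    have hJi : ∀ u ∈ J, ∀ v ∈ J, ¬ adj u v := by
      intro u hu v hv hadj
      rw [hJ, mem_filter] at hu hv
      have hne : u ≠ v := fun e => hirr v (e ▸ hadj)
      have t1 := h6 s hs u hu.1 v hv.1 hne hadj
      have t2 := hspan u (h3 s hu.1) v (h3 s hv.1) hadj
      have t3 := hspan v (h3 s hv.1) u (h3 s hu.1) (hsymm _ _ hadj)
      have t4 : col u + 2 ≠ col v := fun e => hv.2 ⟨u, hu.1, hadj, e⟩
      have t5 : col v + 2 ≠ col u := fun e => hu.2 ⟨v, hv.1, hsymm _ _ hadj, e⟩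
      omega
    have e : ∑ v ∈ J, w v = ∑ v ∈ S, w v * if v ∈ J then 1 else 0 := by
      simp only [mul_ite, mul_one, mul_zero]
      rw [← sum_filter, filter_mem_eq_inter, inter_eq_right.2 hJS]
    rw [mul_one]
    refine le_trans ?_ (hA J hJS hJi)
    rw [e]
    refine sum_le_sum fun v hv => mul_le_mul_of_nonneg_left ?_ (hw v hv)
    have hnn : ∀ u ∈ S, (0 : ℝ) ≤ (if adj u v ∧ col u + 2 = col v then 1 else 0) *
        (if u ∈ I s ∧ v ∈ I s then 1 else 0) := fun u _ => by
      split_ifs <;> norm_num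
    by_cases hvJ : v ∈ J
    · have := sum_nonneg hnn
      have hvI : v ∈ I s := (mem_filter.1 hvJ).1
      rw [if_pos hvJ, if_pos hvI]
      linarith
    · rw [if_neg hvJ]
      by_cases hvI : v ∈ I s
      · have : ∃ u ∈ I s, adj u v ∧ col u + 2 = col v := by
          by_contra hc
          exact hvJ (mem_filter.2 ⟨hvI, hc⟩)
        obtain ⟨u, hu, hu'⟩ := this
        have := single_le_sum hnn (h3 s hu)
        rw [if_pos hu', if_pos ⟨hu, hvI⟩] at this
        rw [if_pos hvI]
        linarith
      · have := sum_nonneg hnn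
        rw [if_neg hvI]
        linarith
  have hm := EE_mono n _ _ hs
  rw [EE_mul, EE_one, EE_sum] at hm
  have hterm : ∀ v ∈ S, (1 + ga) ^ n * (w v * (ga ^ 2 - ga ^ 4 *
      ∑ u ∈ S, if adj u v ∧ col u + 2 = col v then 1 else 0)) ≤
      EE n (fun s => w v * ((if v ∈ I s then 1 else 0) -
      ∑ u ∈ S, (if adj u v ∧ col u + 2 = col v then 1 else 0) *
        (if u ∈ I s ∧ v ∈ I s then 1 else 0))) := by
    intro v hv
    rw [EE_mul, EE_sub, h5 v hv, EE_sum]
    have : ∑ u ∈ S, EE n (fun s => (if adj u v ∧ col u + 2 = col v then 1 else 0) *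
        (if u ∈ I s ∧ v ∈ I s then 1 else 0)) ≤
        ∑ u ∈ S, (1 + ga) ^ n * ga ^ 4 * if adj u v ∧ col u + 2 = col v then 1 else 0 := by
      refine sum_le_sum fun u hu => ?_
      rw [EE_mul]
      by_cases h : adj u v ∧ col u + 2 = col v
      · rw [if_pos h, one_mul, mul_one]
        exact h7 u hu v hv h.1 h.2
      · rw [if_neg h]
        simp
    rw [← mul_sum] at this
    have h0 := hw v hv
    nlinarith [mul_le_mul_of_nonneg_left this h0]
  have := (sum_le_sum hterm).trans hm
  rw [← mul_sum] at this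
  refine le_of_mul_le_mul_left ?_ hZ
  linarith

end Pool.Agent.Lib.MP_17b37b_co
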